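import Mathlib

/-!
Definitions for MP_f88263_an: measures of polynomial growth, Calderón-Zygmund kernels,
operators associated with a kernel, weights, the characteristic `A_2^η(μ)` and the operator norm
on `L^2(w dμ)`. They are written for a metric measurable space `X` and a dimension `d`, and used
with `X = ℝ^d`.
-/

open MeasureTheory Metric
open scoped ENNReal

namespace Pool.Agent.Lib.MP_f88263_an

variable {X : Type} [MetricSpace X] [MeasurableSpace X]

/-- `μ` is a Radon measure with `μ(B(x,r)) ≤ C r^d`, and it is upper doubling with the same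
constant `C`. -/
def IsAdmissibleMeasure (d : ℕ) (C : ℝ) (μ : Measure X) : Prop :=
  μ.Regular ∧
  (∀ x r, 0 < r → μ (ball x r) ≤ ENNReal.ofReal (C * r ^ d)) ∧
  ∃ lam : X → ℝ → ℝ, ∀ x r, 0 < r →
    0 < lam x r ∧ μ (ball x r) ≤ ENNReal.ofReal (C * lam x r) ∧ lam x r ≤ C * lam x (r / 2)

/-- Calderón-Zygmund kernel of dimension `d` with smoothness `δ` and constant `C`. -/
def IsCZKernel {X : Type} [MetricSpace X] (d : ℕ) (δ C : ℝ) (K : X → X → ℝ) : Prop :=
  (∀ x y, x ≠ y → |K x y| ≤ C / dist x y ^ d) ∧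
  ∀ x x' y, x ≠ y → 2 * dist x x' ≤ dist x y →
    |K x y - K x' y| + |K y x - K y x'| ≤ C * dist x x' ^ δ / dist x y ^ ((d : ℝ) + δ)

/-- A bounded linear operator on the real space `L^2(μ)`. -/
structure L2Operator {X : Type} [MeasurableSpace X] (μ : Measure X) where
  /-- the continuous linear map -/
  op : Lp ℝ 2 μ →L[ℝ] Lp ℝ 2 μ

/-- The value `T f`, as a function. -/
noncomputable def L2Operator.app {X : Type} [MeasurableSpace X] {μ : Measure X}
    (T : L2Operator μ) (f : Lp ℝ 2 μ) : X → ℝ :=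
  T.op f

/-- The operator norm of `T` on `L^2(μ)`. -/
noncomputable def L2Operator.norm {X : Type} [MeasurableSpace X] {μ : Measure X}
    (T : L2Operator μ) : ℝ :=
  ContinuousLinearMap.opNorm T.op

/-- `T` is associated with `K`: for compactly supported `f ∈ L^2(μ)`,
`T f (x) = ∫ K(x,y) f(y) dμ(y)` for a.e. `x` outside the support of `f`. -/
def IsAssociated {μ : Measure X} (T : L2Operator μ) (K : X → X → ℝ) : Prop :=
  ∀ (f : X → ℝ) (hf : MemLp f 2 μ), HasCompactSupport f →
    ∀ᵐ x ∂μ, x ∉ tsupport f → T.app (hf.toLp f) x = ∫ y, K x y * f y ∂μ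

/-- A weight: positive a.e., with `w` and `w⁻¹` locally integrable. -/
def IsWeight (μ : Measure X) (w : X → ℝ) : Prop :=
  (∀ᵐ x ∂μ, 0 < w x) ∧ LocallyIntegrable w μ ∧ LocallyIntegrable (fun x => (w x)⁻¹) μ

/-- The characteristic `[w]_{A_2^η(μ)}` in dimension `d`, a supremum over all balls. -/
noncomputable def a2Char (d : ℕ) (η : ℝ) (μ : Measure X) (w : X → ℝ) : ℝ≥0∞ :=
  ⨆ (x : X) (r : ℝ) (_ : 0 < r),
    ((∫⁻ y in ball x r, ENNReal.ofReal (w y) ∂μ) /
        (μ (ball x r) ^ (1 - η) * ENNReal.ofReal (r ^ ((d : ℝ) * η)))) *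
      ((∫⁻ y in ball x r, ENNReal.ofReal (w y)⁻¹ ∂μ) /
        (μ (ball x r) ^ (1 - η) * ENNReal.ofReal (r ^ ((d : ℝ) * η))))

/-- The norm of `T` on `L^2(w dμ)`: the supremum of `‖T f‖ / ‖f‖`, norms in `L^2(w dμ)`, over
`f ∈ L^2(μ)` (an `f` of infinite weighted norm contributes `0`). -/
noncomputable def weightedOpNorm {X : Type} [MeasurableSpace X] {μ : Measure X}
    (T : L2Operator μ) (w : X → ℝ) : ℝ≥0∞ :=
  ⨆ f : Lp ℝ 2 μ,
    eLpNorm (T.app f) 2 (μ.withDensity fun x => ENNReal.ofReal (w x)) /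
      eLpNorm f 2 (μ.withDensity fun x => ENNReal.ofReal (w x))

end Pool.Agent.Lib.MP_f88263_an
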