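import Mathlib
import Pool.Agent.Lib.MP_f88263_an.Defs

-- part Pool.Agent.Lib.MP_f88263_an.Schur
section

/-! The Schur test, and the integral operator on `L^2` it defines. -/

open MeasureTheory
open scoped ENNReal

namespace Pool.Agent.Lib.MP_f88263_an

variable {α : Type} [MeasurableSpace α] {μ : Measure α}

theorem schur_lintegral [SFinite μ] (κ : α → α → ℝ≥0∞) (hκ : Measurable (Function.uncurry κ))
    (h1 : ∀ x, ∫⁻ y, κ x y ∂μ ≤ 1) (h2 : ∀ y, ∫⁻ x, κ x y ∂μ ≤ 1) (g : α → ℝ≥0∞)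
    (hg : Measurable g) :
    ∫⁻ x, (∫⁻ y, κ x y * g y ∂μ) ^ (2 : ℝ) ∂μ ≤ ∫⁻ y, g y ^ (2 : ℝ) ∂μ := by
  have hκx : ∀ x, Measurable (κ x) := fun x => hκ.of_uncurry_left
  have hκy : ∀ y, Measurable (fun x => κ x y) := fun y => hκ.of_uncurry_right
  have step : ∀ x, (∫⁻ y, κ x y * g y ∂μ) ^ (2 : ℝ) ≤ ∫⁻ y, κ x y * g y ^ (2 : ℝ) ∂μ := by
    intro x
    have H := ENNReal.lintegral_mul_norm_pow_le (μ := μ) (f := κ x)
      (g := fun y => κ x y * g y ^ (2 : ℝ)) (hκx x).aemeasurable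
      ((hκx x).mul (hg.pow_const _)).aemeasurable (p := 1 / 2) (q := 1 / 2)
      (by norm_num) (by norm_num) (by norm_num)
    have e : ∀ y, κ x y ^ (1 / 2 : ℝ) * (κ x y * g y ^ (2 : ℝ)) ^ (1 / 2 : ℝ) = κ x y * g y := by
      intro y
      rw [ENNReal.mul_rpow_of_nonneg _ _ (by norm_num), ← mul_assoc,
        ← ENNReal.rpow_add_of_nonneg _ _ (by norm_num) (by norm_num), ← ENNReal.rpow_mul]
      norm_num
    simp only [e] at H
    have H2 : (∫⁻ y, κ x y ∂μ) ^ (1 / 2 : ℝ) ≤ 1 := ENNReal.rpow_le_one (h1 x) (by norm_num)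
    calc (∫⁻ y, κ x y * g y ∂μ) ^ (2 : ℝ)
        ≤ ((∫⁻ y, κ x y * g y ^ (2 : ℝ) ∂μ) ^ (1 / 2 : ℝ)) ^ (2 : ℝ) := by
          refine ENNReal.rpow_le_rpow (H.trans ?_) (by norm_num)
          exact mul_le_of_le_one_left' H2
      _ = _ := by rw [← ENNReal.rpow_mul]; norm_num
  calc ∫⁻ x, (∫⁻ y, κ x y * g y ∂μ) ^ (2 : ℝ) ∂μ
      ≤ ∫⁻ x, ∫⁻ y, κ x y * g y ^ (2 : ℝ) ∂μ ∂μ := lintegral_mono step
    _ = ∫⁻ y, ∫⁻ x, κ x y * g y ^ (2 : ℝ) ∂μ ∂μ := by
        refine lintegral_lintegral_swap ?_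
        exact (hκ.mul ((hg.pow_const _).comp measurable_snd)).aemeasurable
    _ ≤ ∫⁻ y, g y ^ (2 : ℝ) ∂μ := by
        refine lintegral_mono fun y => ?_
        rw [lintegral_mul_const _ (hκy y)]
        exact mul_le_of_le_one_left' (h2 y)

/-- Data for the Schur test. -/
structure SchurKernel (μ : Measure α) (K : α → α → ℝ) : Prop where
  meas : Measurable (Function.uncurry K)
  row : ∀ x, ∫⁻ y, ‖K x y‖ₑ ∂μ ≤ 1
  col : ∀ y, ∫⁻ x, ‖K x y‖ₑ ∂μ ≤ 1
  mem : ∀ x, MemLp (K x) 2 μ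

theorem SchurKernel.bound [SFinite μ] {K : α → α → ℝ} (hK : SchurKernel μ K) (f : Lp ℝ 2 μ) :
    eLpNorm (fun x => ∫ y, K x y * f y ∂μ) 2 μ ≤ eLpNorm f 2 μ := by
  rw [eLpNorm_eq_lintegral_rpow_enorm_toReal (by norm_num) (by norm_num),
    eLpNorm_eq_lintegral_rpow_enorm_toReal (by norm_num) (by norm_num)]
  refine ENNReal.rpow_le_rpow ?_ (by norm_num)
  have := schur_lintegral (μ := μ) (fun x y => ‖K x y‖ₑ) hK.meas.enorm hK.row hK.col
    (fun y => ‖f y‖ₑ) (Lp.stronglyMeasurable f).measurable.enorm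
  refine le_trans (lintegral_mono fun x => ?_) (by simpa using this)
  simp only [ENNReal.toReal_ofNat, ENNReal.rpow_ofNat]
  refine pow_le_pow_left' ((enorm_integral_le_lintegral_enorm _).trans (le_of_eq ?_)) 2
  simp only [enorm_mul]

theorem SchurKernel.memLp [SFinite μ] {K : α → α → ℝ} (hK : SchurKernel μ K) (f : Lp ℝ 2 μ) :
    MemLp (fun x => ∫ y, K x y * f y ∂μ) 2 μ := by
  refine ⟨?_, (hK.bound f).trans_lt (Lp.memLp f).2⟩
  have : StronglyMeasurable (Function.uncurry fun x y => K x y * f y) :=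
    (hK.meas.mul ((Lp.stronglyMeasurable f).measurable.comp measurable_snd)).stronglyMeasurable
  exact this.integral_prod_right.aestronglyMeasurable

theorem SchurKernel.exists_op [SFinite μ] {K : α → α → ℝ} (hK : SchurKernel μ K) :
    ∃ T : Lp ℝ 2 μ →L[ℝ] Lp ℝ 2 μ, ‖T‖ ≤ 1 ∧
      ∀ f : Lp ℝ 2 μ, T f =ᵐ[μ] fun x => ∫ y, K x y * f y ∂μ := by
  have hint : ∀ (f : Lp ℝ 2 μ) x, Integrable (fun y => K x y * f y) μ := fun f x =>
    (hK.mem x).integrable_mul (Lp.memLp f)
  let L : Lp ℝ 2 μ →ₗ[ℝ] Lp ℝ 2 μ :=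
    { toFun := fun f => (hK.memLp f).toLp _
      map_add' := fun f g => by
        rw [← MemLp.toLp_add]
        refine MemLp.toLp_congr _ _ (Filter.Eventually.of_forall fun x => ?_)
        simp only [Pi.add_apply]
        rw [← integral_add (hint f x) (hint g x)]
        refine integral_congr_ae ?_
        filter_upwards [Lp.coeFn_add f g] with y hy
        rw [hy, Pi.add_apply, mul_add]
      map_smul' := fun c f => by
        rw [RingHom.id_apply, ← MemLp.toLp_const_smul]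
        refine MemLp.toLp_congr _ _ (Filter.Eventually.of_forall fun x => ?_)
        simp only [Pi.smul_apply]
        rw [← integral_smul]
        refine integral_congr_ae ?_
        filter_upwards [Lp.coeFn_smul c f] with y hy
        rw [hy, Pi.smul_apply, smul_eq_mul, smul_eq_mul]
        ring }
  have hL : ∀ f, ‖L f‖ ≤ 1 * ‖f‖ := by
    intro f
    rw [one_mul, Lp.norm_def f]
    change ‖(hK.memLp f).toLp _‖ ≤ _
    rw [Lp.norm_toLp]
    exact ENNReal.toReal_mono (Lp.memLp f).2.ne (hK.bound f)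
  exact ⟨L.mkContinuous 1 hL, L.mkContinuous_norm_le zero_le_one hL,
    fun f => MemLp.coeFn_toLp (hK.memLp f)⟩

end Pool.Agent.Lib.MP_f88263_an
end

-- part Pool.Agent.Lib.MP_f88263_an.Kernel
section

/-! The radial profile of the kernel: a sum of `N` Lipschitz bumps at dyadic scales. -/

open Finset

namespace Pool.Agent.Lib.MP_f88263_an

/-- Dyadic radii. -/
noncomputable def rad (j : ℕ) : ℝ := 2 ^ (j + 2)

theorem rad_pos (j : ℕ) : 0 < rad j := by unfold rad; positivity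

theorem four_le_rad (j : ℕ) : 4 ≤ rad j := by
  unfold rad
  have : (1 : ℝ) ≤ 2 ^ j := one_le_pow₀ (by norm_num)
  rw [pow_add]; nlinarith

theorem rad_le {j N : ℕ} (h : j ≤ N) : rad j ≤ rad N := by
  unfold rad
  exact pow_le_pow_right₀ (by norm_num) (by omega)

/-- One bump. -/
noncomputable def bump (d j : ℕ) (t : ℝ) : ℝ := (rad j ^ d)⁻¹ * max (1 - t / rad j) 0

/-- The profile. -/
noncomputable def prof (d N : ℕ) (t : ℝ) : ℝ := ∑ j ∈ range N, bump d j t

theorem bump_nonneg (d j : ℕ) (t : ℝ) : 0 ≤ bump d j t :=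
  mul_nonneg (inv_nonneg.2 (pow_pos (rad_pos j) d).le) (le_max_right _ _)

theorem prof_nonneg (d N : ℕ) (t : ℝ) : 0 ≤ prof d N t :=
  sum_nonneg fun j _ => bump_nonneg d j t

theorem bump_eq_zero (d j : ℕ) {t : ℝ} (h : rad j ≤ t) : bump d j t = 0 := by
  have : 1 - t / rad j ≤ 0 := by
    have := (one_le_div (rad_pos j)).2 h
    linarith
  rw [bump, max_eq_right this, mul_zero]

theorem bump_le (d j : ℕ) {t : ℝ} (h : 0 ≤ t) : bump d j t ≤ (rad j ^ d)⁻¹ := by
  have h1 : max (1 - t / rad j) 0 ≤ 1 := by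
    have := div_nonneg h (rad_pos j).le
    exact max_le (by linarith) zero_le_one
  exact mul_le_of_le_one_right (inv_nonneg.2 (pow_pos (rad_pos j) d).le) h1

theorem le_bump (d j : ℕ) {t : ℝ} (h : t ≤ rad j / 2) : (rad j ^ d)⁻¹ / 2 ≤ bump d j t := by
  have h1 : 1 / 2 ≤ max (1 - t / rad j) 0 := by
    refine le_trans ?_ (le_max_left _ _)
    have : t / rad j ≤ 1 / 2 := by
      rw [div_le_iff₀ (rad_pos j)]; linarith
    linarith
  have := mul_le_mul_of_nonneg_left h1 (inv_nonneg.2 (pow_pos (rad_pos j) d).le)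
  unfold bump
  linarith

theorem bump_lip (d j : ℕ) (s t : ℝ) : |bump d j t - bump d j s| ≤ (rad j ^ (d + 1))⁻¹ * |t - s| := by
  have hr := rad_pos j
  unfold bump
  rw [← mul_sub, abs_mul, abs_of_nonneg (inv_nonneg.2 (pow_pos hr d).le), pow_succ, mul_inv,
    mul_assoc]
  refine mul_le_mul_of_nonneg_left ((abs_max_sub_max_le_abs _ _ _).trans (le_of_eq ?_))
    (inv_nonneg.2 (pow_pos hr d).le)
  have : 1 - t / rad j - (1 - s / rad j) = (rad j)⁻¹ * (s - t) := by field_simp; ring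
  rw [this, abs_mul, abs_of_pos (inv_pos.2 hr), abs_sub_comm]

theorem continuous_prof (d N : ℕ) : Continuous (prof d N) := by
  unfold prof bump
  fun_prop

theorem prof_eq_zero (d N : ℕ) {t : ℝ} (h : rad N ≤ t) : prof d N t = 0 :=
  sum_eq_zero fun _ hj => bump_eq_zero d _ ((rad_le (mem_range.1 hj).le).trans h)

theorem geom (p N : ℕ) (hp : 1 ≤ p) {t : ℝ} (ht : 0 < t) :
    ∑ j ∈ range N, (if t < rad j then (rad j ^ p)⁻¹ else 0) ≤ 2 * (t ^ p)⁻¹ := by
  have key : ∑ j ∈ range N, (if t < rad j then (rad j ^ p)⁻¹ else 0) ≤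
      2 * max ((t ^ p)⁻¹ - (rad N ^ p)⁻¹) 0 := by
    induction N with
    | zero => simp
    | succ N ih =>
      rw [sum_range_succ]
      have hpos : 0 < (rad N ^ p)⁻¹ := inv_pos.2 (pow_pos (rad_pos N) p)
      have h2 : (rad (N + 1) ^ p)⁻¹ ≤ (rad N ^ p)⁻¹ / 2 := by
        have e : rad (N + 1) = 2 * rad N := by unfold rad; ring
        have : (2 : ℝ) ≤ 2 ^ p := by
          calc (2 : ℝ) = 2 ^ 1 := by norm_num
            _ ≤ 2 ^ p := pow_le_pow_right₀ (by norm_num) hp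
        rw [e, mul_pow, mul_inv]
        have h3 : ((2 : ℝ) ^ p)⁻¹ ≤ 2⁻¹ := inv_anti₀ (by norm_num) this
        nlinarith
      split_ifs with h
      · have h4 : (rad N ^ p)⁻¹ ≤ (t ^ p)⁻¹ :=
          inv_anti₀ (pow_pos ht p) (pow_le_pow_left₀ ht.le h.le p)
        rw [max_eq_left (by linarith)] at ih
        have := le_max_left ((t ^ p)⁻¹ - (rad (N + 1) ^ p)⁻¹) 0
        linarith
      · have : max ((t ^ p)⁻¹ - (rad N ^ p)⁻¹) 0 ≤ max ((t ^ p)⁻¹ - (rad (N + 1) ^ p)⁻¹) 0 :=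
          max_le_max (by linarith) le_rfl
        linarith
  refine key.trans (mul_le_mul_of_nonneg_left (max_le ?_ ?_) (by norm_num))
  · have := inv_pos.2 (pow_pos (rad_pos N) p)
    linarith
  · exact (inv_pos.2 (pow_pos ht p)).le

theorem prof_le (d N : ℕ) (hd : 1 ≤ d) {t : ℝ} (ht : 0 < t) : prof d N t ≤ 2 * (t ^ d)⁻¹ := by
  refine le_trans (sum_le_sum fun j _ => ?_) (geom d N hd ht)
  split_ifs with h
  · exact bump_le d j ht.le
  · exact (bump_eq_zero d j (not_lt.1 h)).le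

theorem prof_lip (d N : ℕ) {s t : ℝ} (ht : 0 < t) (hs : t / 2 ≤ s) :
    |prof d N t - prof d N s| ≤ 2 ^ (d + 2) * (t ^ (d + 1))⁻¹ * |t - s| := by
  have h1 : |prof d N t - prof d N s| ≤
      ∑ j ∈ range N, (if t / 2 < rad j then (rad j ^ (d + 1))⁻¹ else 0) * |t - s| := by
    unfold prof
    rw [← sum_sub_distrib]
    refine (abs_sum_le_sum_abs _ _).trans (sum_le_sum fun j _ => ?_)
    split_ifs with h
    · exact bump_lip d j s t
    · have h := not_lt.1 h
      rw [bump_eq_zero d j (by linarith), bump_eq_zero d j (by linarith)]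
      simp
  rw [← sum_mul] at h1
  refine h1.trans (mul_le_mul_of_nonneg_right ?_ (abs_nonneg _))
  refine (geom (d + 1) N (by omega) (half_pos ht)).trans (le_of_eq ?_)
  rw [div_pow]
  field_simp
  ring

end Pool.Agent.Lib.MP_f88263_an
end

-- part Pool.Agent.Lib.MP_f88263_an.Example
section

/-! The measure, the stripes and the basic estimates of the counterexample. -/

open MeasureTheory Metric Set
open scoped ENNReal

namespace Pool.Agent.Lib.MP_f88263_an

/-- Lebesgue measure normalised so that a ball of radius `r` has mass `ε r^d`. -/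
noncomputable def mu (d : ℕ) (ε : ℝ) : Measure (EuclideanSpace ℝ (Fin d)) :=
  (ENNReal.ofReal ε * (volume (ball (0 : EuclideanSpace ℝ (Fin d)) 1))⁻¹) • volume

theorem mu_coeff_ne_top (d : ℕ) (ε : ℝ) :
    ENNReal.ofReal ε * (volume (ball (0 : EuclideanSpace ℝ (Fin d)) 1))⁻¹ ≠ ∞ :=
  ENNReal.mul_ne_top ENNReal.ofReal_ne_top
    (ENNReal.inv_ne_top.2 (measure_ball_pos volume _ one_pos).ne')

theorem mu_regular (d : ℕ) (ε : ℝ) : (mu d ε).Regular :=
  Measure.Regular.smul (mu_coeff_ne_top d ε)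

theorem mu_sfinite (d : ℕ) (ε : ℝ) : SFinite (mu d ε) := by
  unfold mu; infer_instance

theorem mu_ball (d : ℕ) {ε : ℝ} (hε : 0 ≤ ε) (x : EuclideanSpace ℝ (Fin d)) {r : ℝ} (hr : 0 < r) :
    mu d ε (ball x r) = ENNReal.ofReal (ε * r ^ d) := by
  rw [mu, Measure.smul_apply, Measure.addHaar_ball_of_pos volume x hr, finrank_euclideanSpace,
    Fintype.card_fin, smul_eq_mul, ENNReal.ofReal_mul hε, mul_assoc, mul_comm (ENNReal.ofReal (r ^ d)),
    ← mul_assoc (volume (ball (0 : EuclideanSpace ℝ (Fin d)) 1))⁻¹,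
    ENNReal.inv_mul_cancel (measure_ball_pos volume _ one_pos).ne' measure_ball_lt_top.ne, one_mul]

theorem mu_half (d : ℕ) {ε : ℝ} (hε : 0 ≤ ε) (S : Set (EuclideanSpace ℝ (Fin d)))
    (e : EuclideanSpace ℝ (Fin d)) (he : ‖e‖ = 1) (hS : ∀ x, x ∉ S → x + e ∈ S)
    (x : EuclideanSpace ℝ (Fin d)) {ρ : ℝ} (hρ : 2 ≤ ρ) :
    ENNReal.ofReal (ε * (ρ / 2) ^ d / 2) ≤ mu d ε (S ∩ ball x ρ) := by
  have h1 : ball x (ρ / 2) ⊆ (S ∩ ball x ρ) ∪ (fun y => y + e) ⁻¹' (S ∩ ball x ρ) := by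
    intro y hy
    rw [mem_ball] at hy
    by_cases h : y ∈ S
    · exact Or.inl ⟨h, by rw [mem_ball]; linarith⟩
    · refine Or.inr ⟨hS y h, ?_⟩
      rw [mem_ball]
      have : dist (y + e) y = 1 := by simp [he]
      have := dist_triangle (y + e) y x
      linarith
  have h2 : mu d ε ((fun y => y + e) ⁻¹' (S ∩ ball x ρ)) = mu d ε (S ∩ ball x ρ) := by
    simp only [mu, Measure.smul_apply, measure_preimage_add_right]
  have h3 := (measure_mono (μ := mu d ε) h1).trans (measure_union_le _ _)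
  rw [h2, mu_ball d hε x (by linarith), ← two_mul] at h3
  rw [ENNReal.ofReal_div_of_pos (by norm_num), ENNReal.ofReal_ofNat]
  exact ENNReal.div_le_of_le_mul' h3

/-- Stripes of width one. -/
def stripes (d : ℕ) (i : Fin d) : Set (EuclideanSpace ℝ (Fin d)) := {x | Even ⌊x i⌋}

theorem measurableSet_stripes (d : ℕ) (i : Fin d) : MeasurableSet (stripes d i) := by
  have h : Measurable fun x : EuclideanSpace ℝ (Fin d) => ⌊x i⌋ :=
    Int.measurable_floor.comp (by fun_prop)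
  exact h (MeasurableSet.of_discrete (s := {n : ℤ | Even n}))

theorem stripes_shift (d : ℕ) (i : Fin d) (x : EuclideanSpace ℝ (Fin d)) :
    x + EuclideanSpace.single i (1 : ℝ) ∈ stripes d i ↔ x ∉ stripes d i := by
  simp [stripes, Int.floor_add_one]

theorem stripes_half (d : ℕ) (i : Fin d) {ε : ℝ} (hε : 0 ≤ ε) (x : EuclideanSpace ℝ (Fin d))
    {ρ : ℝ} (hρ : 2 ≤ ρ) :
    ENNReal.ofReal (ε * (ρ / 2) ^ d / 2) ≤ mu d ε (stripes d i ∩ ball x ρ) :=
  mu_half d hε _ (EuclideanSpace.single i (1 : ℝ)) (by simp)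
    (fun y hy => (stripes_shift d i y).2 hy) x hρ

theorem stripes_compl_half (d : ℕ) (i : Fin d) {ε : ℝ} (hε : 0 ≤ ε)
    (x : EuclideanSpace ℝ (Fin d)) {ρ : ℝ} (hρ : 2 ≤ ρ) :
    ENNReal.ofReal (ε * (ρ / 2) ^ d / 2) ≤ mu d ε ((stripes d i)ᶜ ∩ ball x ρ) :=
  mu_half d hε _ (EuclideanSpace.single i (1 : ℝ)) (by simp)
    (fun y hy h => (stripes_shift d i y).1 h (not_not.1 hy)) x hρ

theorem ofReal_prof (d N : ℕ) (t : ℝ) :
    ENNReal.ofReal (prof d N t) = ∑ j ∈ Finset.range N, ENNReal.ofReal (bump d j t) :=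
  ENNReal.ofReal_sum_of_nonneg fun j _ => bump_nonneg d j t

theorem row_bound (d N : ℕ) (hN : 0 < N) (x : EuclideanSpace ℝ (Fin d)) :
    ∫⁻ y, ‖prof d N (dist x y)‖ₑ ∂(mu d (N : ℝ)⁻¹) ≤ 1 := by
  have hε : (0 : ℝ) ≤ (N : ℝ)⁻¹ := by positivity
  calc ∫⁻ y, ‖prof d N (dist x y)‖ₑ ∂(mu d (N : ℝ)⁻¹)
      ≤ ∫⁻ y, ∑ j ∈ Finset.range N, (ball x (rad j)).indicator
          (fun _ => ENNReal.ofReal (rad j ^ d)⁻¹) y ∂(mu d (N : ℝ)⁻¹) := by
        refine lintegral_mono fun y => ?_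
        rw [Real.enorm_eq_ofReal (prof_nonneg d N _), ofReal_prof]
        refine Finset.sum_le_sum fun j _ => ?_
        by_cases h : y ∈ ball x (rad j)
        · rw [indicator_of_mem h]
          exact ENNReal.ofReal_le_ofReal (bump_le d j dist_nonneg)
        · rw [mem_ball', not_lt] at h
          rw [bump_eq_zero d j h]
          simp
    _ = ∑ j ∈ Finset.range N, ENNReal.ofReal (N : ℝ)⁻¹ := by
        rw [lintegral_finsetSum _ fun j _ => measurable_const.indicator measurableSet_ball]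
        refine Finset.sum_congr rfl fun j _ => ?_
        have := pow_pos (rad_pos j) d
        rw [lintegral_indicator_const measurableSet_ball, mu_ball d hε x (rad_pos j),
          ← ENNReal.ofReal_mul (by positivity)]
        congr 1
        field_simp
    _ = 1 := by
        rw [← ENNReal.ofReal_sum_of_nonneg fun _ _ => hε, Finset.sum_const, Finset.card_range,
          nsmul_eq_mul, mul_inv_cancel₀ (by positivity), ENNReal.ofReal_one]

theorem schurKernel (d N : ℕ) (hN : 0 < N) :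
    SchurKernel (mu d (N : ℝ)⁻¹) (fun x y => prof d N (dist x y)) where
  meas := ((continuous_prof d N).comp continuous_dist).measurable
  row := row_bound d N hN
  col y := by simpa only [dist_comm _ y] using row_bound d N hN y
  mem x := by
    have := mu_regular d (N : ℝ)⁻¹
    refine ((continuous_prof d N).comp (continuous_const.dist continuous_id)).memLp_of_hasCompactSupport ?_
    refine HasCompactSupport.intro (isCompact_closedBall x (rad N)) fun y hy => ?_
    rw [mem_closedBall', not_le] at hy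
    exact prof_eq_zero d N hy.le

theorem lower_bound (d N : ℕ) (i : Fin d) (hN : 0 < N) (x : EuclideanSpace ℝ (Fin d))
    (hx : x ∈ ball (0 : EuclideanSpace ℝ (Fin d)) (rad N)) :
    ENNReal.ofReal (((4 : ℝ) ^ (d + 1))⁻¹) ≤ ∫⁻ y, ENNReal.ofReal (prof d N (dist x y) *
      (stripes d i ∩ ball 0 (2 * rad N)).indicator (fun _ => (1 : ℝ)) y) ∂(mu d (N : ℝ)⁻¹) := by
  have hε : (0 : ℝ) ≤ (N : ℝ)⁻¹ := by positivity
  have hm : ∀ j, MeasurableSet (stripes d i ∩ ball x (rad j / 2)) := fun j =>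
    (measurableSet_stripes d i).inter measurableSet_ball
  calc ENNReal.ofReal (((4 : ℝ) ^ (d + 1))⁻¹)
      = ∑ j ∈ Finset.range N, ENNReal.ofReal ((N : ℝ)⁻¹ * ((4 : ℝ) ^ (d + 1))⁻¹) := by
        rw [← ENNReal.ofReal_sum_of_nonneg fun _ _ => by positivity, Finset.sum_const,
          Finset.card_range, nsmul_eq_mul, ← mul_assoc, mul_inv_cancel₀ (by positivity), one_mul]
    _ ≤ ∫⁻ y, ∑ j ∈ Finset.range N, (stripes d i ∩ ball x (rad j / 2)).indicator
          (fun _ => ENNReal.ofReal ((rad j ^ d)⁻¹ / 2)) y ∂(mu d (N : ℝ)⁻¹) := by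
        rw [lintegral_finsetSum _ fun j _ => measurable_const.indicator (hm j)]
        refine Finset.sum_le_sum fun j _ => ?_
        have h0 := pow_pos (rad_pos j) d
        rw [lintegral_indicator_const (hm j)]
        refine le_trans (le_of_eq ?_) (mul_le_mul_right
          (stripes_half d i hε x (ρ := rad j / 2) (by linarith [four_le_rad j])) _)
        rw [← ENNReal.ofReal_mul (by positivity)]
        congr 1
        have : (rad j / 2 / 2) ^ d = rad j ^ d / 4 ^ d := by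
          rw [← div_pow]; congr 1; ring
        rw [this]
        field_simp
        ring
    _ ≤ _ := by
        refine lintegral_mono fun y => ?_
        by_cases hy : y ∈ stripes d i ∩ ball 0 (2 * rad N)
        · rw [indicator_of_mem hy, mul_one, ofReal_prof]
          refine Finset.sum_le_sum fun j _ => ?_
          by_cases h : y ∈ stripes d i ∩ ball x (rad j / 2)
          · rw [indicator_of_mem h]
            exact ENNReal.ofReal_le_ofReal (le_bump d j (mem_ball'.1 h.2).le)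
          · rw [indicator_of_notMem h]
            exact zero_le
        · refine le_trans (le_of_eq (Finset.sum_eq_zero fun j hj => ?_)) zero_le
          refine indicator_of_notMem (fun h => hy ⟨h.1, ?_⟩) _
          have h1 := mem_ball.1 h.2
          have h2 := mem_ball.1 hx
          have h3 := rad_le (Finset.mem_range.1 hj).le
          have h4 := dist_triangle y x 0
          have h5 := rad_pos j
          rw [mem_ball]
          linarith

end Pool.Agent.Lib.MP_f88263_an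
end

-- part Pool.Agent.Lib.MP_f88263_an.Main
section

/-! Assembly of the counterexample to Q2. -/

open MeasureTheory Metric Set
open scoped ENNReal

namespace Pool.Agent.Lib.MP_f88263_an

open Classical in
/-- The weight: `M⁻¹` on the stripes and `M` off them. -/
noncomputable def wt (d : ℕ) (i : Fin d) (M : ℝ) (x : EuclideanSpace ℝ (Fin d)) : ℝ :=
  if x ∈ stripes d i then M⁻¹ else M

theorem measurable_wt (d : ℕ) (i : Fin d) (M : ℝ) : Measurable (wt d i M) :=
  Measurable.ite (measurableSet_stripes d i) measurable_const measurable_const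

theorem wt_pos (d : ℕ) (i : Fin d) {M : ℝ} (hM : 1 ≤ M) (x : EuclideanSpace ℝ (Fin d)) :
    0 < wt d i M x := by
  unfold wt; split_ifs <;> positivity

theorem wt_le (d : ℕ) (i : Fin d) {M : ℝ} (hM : 1 ≤ M) (x : EuclideanSpace ℝ (Fin d)) :
    wt d i M x ≤ M ∧ (wt d i M x)⁻¹ ≤ M := by
  have : M⁻¹ ≤ M := (inv_le_one_of_one_le₀ hM).trans hM
  unfold wt; split_ifs
  · exact ⟨this, by rw [inv_inv]⟩
  · exact ⟨le_rfl, this⟩

theorem isWeight_wt (d : ℕ) (i : Fin d) (ε : ℝ) {M : ℝ} (hM : 1 ≤ M) :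
    IsWeight (mu d ε) (wt d i M) := by
  have := mu_regular d ε
  refine ⟨Filter.Eventually.of_forall (wt_pos d i hM), ?_, ?_⟩
  · refine (locallyIntegrable_const M).mono (measurable_wt d i M).aestronglyMeasurable
      (Filter.Eventually.of_forall fun x => ?_)
    rw [Real.norm_eq_abs, Real.norm_eq_abs, abs_of_pos (wt_pos d i hM x), abs_of_pos (by linarith)]
    exact (wt_le d i hM x).1
  · refine (locallyIntegrable_const M).mono (measurable_wt d i M).inv.aestronglyMeasurable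
      (Filter.Eventually.of_forall fun x => ?_)
    rw [Real.norm_eq_abs, Real.norm_eq_abs, abs_of_pos (inv_pos.2 (wt_pos d i hM x)),
      abs_of_pos (by linarith)]
    exact (wt_le d i hM x).2

theorem a2_factor (d : ℕ) {ε η M : ℝ} (hε : 0 < ε) (hη1 : η ≤ 1) (hM : 0 ≤ M)
    (hMε : M * ε ^ η ≤ 1) (g : EuclideanSpace ℝ (Fin d) → ℝ) (hg : ∀ x, g x ≤ M)
    (x : EuclideanSpace ℝ (Fin d)) {r : ℝ} (hr : 0 < r) :
    (∫⁻ y in ball x r, ENNReal.ofReal (g y) ∂(mu d ε)) /
      (mu d ε (ball x r) ^ (1 - η) * ENNReal.ofReal (r ^ ((d : ℝ) * η))) ≤ 1 := by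
  refine ENNReal.div_le_of_le_mul ?_
  have h1 : ∫⁻ y in ball x r, ENNReal.ofReal (g y) ∂(mu d ε) ≤
      ENNReal.ofReal M * mu d ε (ball x r) := by
    rw [← setLIntegral_const]
    exact lintegral_mono fun y => ENNReal.ofReal_le_ofReal (hg y)
  refine h1.trans ?_
  have hp : 0 < ε * r ^ d := by positivity
  rw [one_mul, mu_ball d hε.le x hr, ENNReal.ofReal_rpow_of_nonneg hp.le (by linarith),
    ← ENNReal.ofReal_mul hM, ← ENNReal.ofReal_mul (by positivity)]
  refine ENNReal.ofReal_le_ofReal ?_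
  have e1 : ε * r ^ d = (ε * r ^ d) ^ (1 - η) * (ε ^ η * r ^ ((d : ℝ) * η)) := by
    rw [Real.rpow_mul hr.le, Real.rpow_natCast, ← Real.mul_rpow hε.le (by positivity),
      ← Real.rpow_add hp]
    simp
  calc M * (ε * r ^ d) = (M * ε ^ η) * ((ε * r ^ d) ^ (1 - η) * r ^ ((d : ℝ) * η)) := by
        conv_lhs => rw [e1]
        ring
    _ ≤ 1 * ((ε * r ^ d) ^ (1 - η) * r ^ ((d : ℝ) * η)) :=
        mul_le_mul_of_nonneg_right hMε (by positivity)
    _ = _ := one_mul _

theorem a2Char_le (d : ℕ) (i : Fin d) {ε η M : ℝ} (hε : 0 < ε) (hη1 : η ≤ 1) (hM : 1 ≤ M)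
    (hMε : M * ε ^ η ≤ 1) : a2Char d η (mu d ε) (wt d i M) ≤ 1 := by
  refine iSup_le fun x => iSup_le fun r => iSup_le fun hr => ?_
  exact mul_le_one' (a2_factor d hε hη1 (by linarith) hMε _ (fun y => (wt_le d i hM y).1) x hr)
    (a2_factor d hε hη1 (by linarith) hMε _ (fun y => (wt_le d i hM y).2) x hr)

theorem admissible_mu (d : ℕ) {ε C : ℝ} (hε : 0 ≤ ε) (hε1 : ε ≤ 1) (hC : 2 ^ d ≤ C) :
    IsAdmissibleMeasure d C (mu d ε) := by
  have h1 : (1 : ℝ) ≤ 2 ^ d := one_le_pow₀ (by norm_num)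
  have h2 : ∀ x r, 0 < r → mu d ε (ball x r) ≤ ENNReal.ofReal (C * r ^ d) := fun x r hr => by
    rw [mu_ball d hε x hr]
    exact ENNReal.ofReal_le_ofReal (mul_le_mul_of_nonneg_right (by linarith) (by positivity))
  refine ⟨mu_regular d ε, h2, fun _ r => r ^ d, fun x r hr => ⟨by positivity, h2 x r hr, ?_⟩⟩
  have : r ^ d = 2 ^ d * (r / 2) ^ d := by rw [← mul_pow]; congr 1; ring
  calc r ^ d = 2 ^ d * (r / 2) ^ d := this
    _ ≤ C * (r / 2) ^ d := mul_le_mul_of_nonneg_right hC (by positivity)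

theorem isCZKernel_prof (d N : ℕ) (hd : 1 ≤ d) {δ a A : ℝ} (hδ1 : δ ≤ 1) (ha : 0 ≤ a)
    (haA : a ≤ A) : IsCZKernel d δ (A * 2 ^ (d + 3))
      (fun x y : EuclideanSpace ℝ (Fin d) => a * prof d N (dist x y)) := by
  have hA : 0 ≤ A := ha.trans haA
  constructor
  · intro x y hxy
    have ht : 0 < dist x y := dist_pos.2 hxy
    rw [abs_of_nonneg (mul_nonneg ha (prof_nonneg d N _)), div_eq_mul_inv, mul_assoc]
    refine mul_le_mul haA ((prof_le d N hd ht).trans ?_) (prof_nonneg d N _) hA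
    refine mul_le_mul_of_nonneg_right ?_ (by positivity)
    calc (2 : ℝ) = 2 ^ 1 := by norm_num
      _ ≤ 2 ^ (d + 3) := pow_le_pow_right₀ (by norm_num) (by omega)
  · intro x x' y hxy h2
    have ht : 0 < dist x y := dist_pos.2 hxy
    have hs : dist x y / 2 ≤ dist x' y := by linarith [dist_triangle x x' y]
    have hl := prof_lip d N ht hs
    have hd' : |dist x y - dist x' y| ≤ dist x x' := abs_dist_sub_le x x' y
    have hq : dist x x' / dist x y ≤ (dist x x' / dist x y) ^ δ := by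
      rcases (div_nonneg (dist_nonneg (x := x) (y := x')) ht.le).eq_or_lt with h | h
      · rw [← h]; exact Real.rpow_nonneg le_rfl _
      · exact Real.self_le_rpow_of_le_one h.le (by rw [div_le_one ht]; linarith [dist_nonneg (x := x) (y := x')]) hδ1
    rw [Real.div_rpow dist_nonneg ht.le] at hq
    simp only [dist_comm y]
    rw [← two_mul, ← mul_sub, abs_mul, abs_of_nonneg ha, Real.rpow_add ht, Real.rpow_natCast]
    have hp : 0 < dist x y ^ d := pow_pos ht d
    calc 2 * (a * |prof d N (dist x y) - prof d N (dist x' y)|)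
        ≤ 2 * (A * (2 ^ (d + 2) * (dist x y ^ (d + 1))⁻¹ * dist x x')) := by
          refine mul_le_mul_of_nonneg_left (mul_le_mul haA (hl.trans ?_) (abs_nonneg _) hA)
            (by norm_num)
          exact mul_le_mul_of_nonneg_left hd' (by positivity)
      _ = A * 2 ^ (d + 3) * (dist x y ^ d)⁻¹ * (dist x x' / dist x y) := by
          field_simp
          ring
      _ ≤ A * 2 ^ (d + 3) * (dist x y ^ d)⁻¹ * (dist x x' ^ δ / dist x y ^ δ) :=
          mul_le_mul_of_nonneg_left hq (by positivity)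
      _ = _ := by
          have := Real.rpow_pos_of_pos ht δ
          field_simp

theorem test_function (d N : ℕ) (i : Fin d) (hN : 0 < N)
    (μ : Measure (EuclideanSpace ℝ (Fin d))) (hμ : μ = mu d (N : ℝ)⁻¹)
    (T : Lp ℝ 2 μ →L[ℝ] Lp ℝ 2 μ)
    (hT : ∀ f : Lp ℝ 2 μ, T f =ᵐ[μ] fun x => ∫ y, prof d N (dist x y) * f y ∂μ) :
    ∃ f : Lp ℝ 2 μ, ∀ M : ℝ, 1 ≤ M →
      eLpNorm f 2 (μ.withDensity fun x => ENNReal.ofReal (wt d i M x)) ≠ 0 ∧
      eLpNorm f 2 (μ.withDensity fun x => ENNReal.ofReal (wt d i M x)) ≠ ∞ ∧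
      ENNReal.ofReal (((4 : ℝ) ^ (d + 1))⁻¹ ^ 2 * M) *
        eLpNorm f 2 (μ.withDensity fun x => ENNReal.ofReal (wt d i M x)) ≤
      eLpNorm (T f) 2 (μ.withDensity fun x => ENNReal.ofReal (wt d i M x)) := by
  have hε : (0 : ℝ) < (N : ℝ)⁻¹ := by positivity
  have hSK : SchurKernel μ (fun x y => prof d N (dist x y)) := hμ ▸ schurKernel d N hN
  set c : ℝ := ((4 : ℝ) ^ (d + 1))⁻¹ with hc
  have hc0 : 0 < c := by positivity
  have hR := four_le_rad N
  set S := stripes d i ∩ ball 0 (2 * rad N) with hS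
  set S' := (stripes d i)ᶜ ∩ ball 0 (rad N) with hS'
  have mS : MeasurableSet S := (measurableSet_stripes d i).inter measurableSet_ball
  have mS' : MeasurableSet S' := (measurableSet_stripes d i).compl.inter measurableSet_ball
  have hSle : μ S ≤ ENNReal.ofReal ((N : ℝ)⁻¹ * (2 * rad N) ^ d) := by
    rw [← mu_ball d hε.le 0 (by linarith), hμ]
    exact measure_mono inter_subset_right
  have hSfin : μ S ≠ ∞ := ne_top_of_le_ne_top ENNReal.ofReal_ne_top hSle
  have hSpos : μ S ≠ 0 := by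
    rw [hμ]
    refine ne_of_gt (lt_of_lt_of_le ?_ (stripes_half d i hε.le 0 (ρ := 2 * rad N) (by linarith)))
    exact ENNReal.ofReal_pos.2 (by positivity)
  have hS'ge := stripes_compl_half d i hε.le 0 (ρ := rad N) (by linarith)
  rw [← hμ] at hS'ge
  have hf0 := indicatorConstLp_coeFn (p := 2) (hs := mS) (hμs := hSfin) (c := (1 : ℝ))
  refine ⟨indicatorConstLp 2 mS hSfin (1 : ℝ), fun M hM => ?_⟩
  set f := indicatorConstLp 2 mS hSfin (1 : ℝ)
  set ν := μ.withDensity fun x => ENNReal.ofReal (wt d i M x) with hν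
  have hac : ν ≪ μ := withDensity_absolutelyContinuous _ _
  have hνS : ν S = ENNReal.ofReal M⁻¹ * μ S := by
    rw [hν, withDensity_apply _ mS, ← setLIntegral_const]
    refine setLIntegral_congr_fun mS fun x hx => ?_
    simp only [wt, if_pos hx.1]
  have hνS' : ν S' = ENNReal.ofReal M * μ S' := by
    rw [hν, withDensity_apply _ mS', ← setLIntegral_const]
    refine setLIntegral_congr_fun mS' fun x hx => ?_
    simp only [wt, if_neg hx.1]
  have e1 : eLpNorm f 2 ν = ν S ^ (1 / 2 : ℝ) := by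
    rw [eLpNorm_congr_ae (hac.ae_eq hf0), eLpNorm_indicator_const mS (by norm_num) (by norm_num)]
    simp
  have e2 : ENNReal.ofReal c * ν S' ^ (1 / 2 : ℝ) ≤ eLpNorm (T f) 2 ν := by
    have : eLpNorm (S'.indicator fun _ => c) 2 ν = ENNReal.ofReal c * ν S' ^ (1 / 2 : ℝ) := by
      rw [eLpNorm_indicator_const mS' (by norm_num) (by norm_num), Real.enorm_eq_ofReal hc0.le]
      simp
    rw [← this]
    refine eLpNorm_mono_enorm_ae (hac.ae_le ?_)
    filter_upwards [hT f] with x hx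
    by_cases hxS : x ∈ S'
    · rw [indicator_of_mem hxS, Real.enorm_eq_ofReal hc0.le, hx]
      have h1 : ∫ y, prof d N (dist x y) * f y ∂μ =
          ∫ y, prof d N (dist x y) * S.indicator (fun _ => (1 : ℝ)) y ∂μ := by
        refine integral_congr_ae ?_
        filter_upwards [hf0] with y hy
        rw [hy]
      have h2 : Integrable (fun y => prof d N (dist x y) * S.indicator (fun _ => (1 : ℝ)) y) μ := by
        refine ((hSK.mem x).integrable_mul (Lp.memLp f)).congr ?_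
        filter_upwards [hf0] with y hy
        rw [Pi.mul_apply, hy]
      rw [h1]
      refine (lower_bound d N i hN x hxS.2).trans ?_
      rw [← hμ, ← ofReal_integral_eq_lintegral_ofReal h2 (Filter.Eventually.of_forall fun y =>
        mul_nonneg (prof_nonneg d N _) (indicator_nonneg (fun _ _ => zero_le_one) y))]
      exact Real.ofReal_le_enorm _
    · rw [indicator_of_notMem hxS]
      simp
  have hM0 : 0 < M := by linarith
  refine ⟨?_, ?_, le_trans ?_ e2⟩
  · rw [e1, hνS]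
    refine (ENNReal.rpow_pos ?_ ?_).ne'
    · exact ENNReal.mul_pos (ENNReal.ofReal_pos.2 (by positivity)).ne' hSpos
    · exact ENNReal.mul_ne_top ENNReal.ofReal_ne_top hSfin
  · rw [e1, hνS]
    exact ENNReal.rpow_ne_top_of_nonneg (by norm_num)
      (ENNReal.mul_ne_top ENNReal.ofReal_ne_top hSfin)
  · rw [e1, sq, mul_assoc, ENNReal.ofReal_mul hc0.le, mul_assoc]
    refine mul_le_mul_right ?_ _
    have h3 : ENNReal.ofReal (c * M) = (ENNReal.ofReal ((c * M) ^ 2)) ^ (1 / 2 : ℝ) := by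
      rw [ENNReal.ofReal_rpow_of_nonneg (by positivity) (by norm_num), ← Real.sqrt_eq_rpow,
        Real.sqrt_sq (by positivity)]
    rw [h3, ← ENNReal.mul_rpow_of_nonneg _ _ (by norm_num), hνS, hνS']
    refine ENNReal.rpow_le_rpow ?_ (by norm_num)
    calc ENNReal.ofReal ((c * M) ^ 2) * (ENNReal.ofReal M⁻¹ * μ S)
        ≤ ENNReal.ofReal ((c * M) ^ 2) *
            (ENNReal.ofReal M⁻¹ * ENNReal.ofReal ((N : ℝ)⁻¹ * (2 * rad N) ^ d)) := by
          gcongr
      _ ≤ ENNReal.ofReal M * ENNReal.ofReal ((N : ℝ)⁻¹ * (rad N / 2) ^ d / 2) := by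
          rw [← ENNReal.ofReal_mul (by positivity), ← ENNReal.ofReal_mul (by positivity),
            ← ENNReal.ofReal_mul (by positivity)]
          refine ENNReal.ofReal_le_ofReal ?_
          have e3 : (2 * rad N) ^ d = 4 ^ d * (rad N / 2) ^ d := by
            rw [← mul_pow]; congr 1; ring
          have h4 : (1 : ℝ) ≤ 4 ^ d := one_le_pow₀ (by norm_num)
          have h5 : c ^ 2 * 4 ^ d ≤ 1 / 2 := by
            rw [hc, pow_succ (4 : ℝ) d]
            field_simp
            nlinarith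
          have h6 : 0 ≤ M * ((N : ℝ)⁻¹ * (rad N / 2) ^ d) := by positivity
          calc (c * M) ^ 2 * (M⁻¹ * ((N : ℝ)⁻¹ * (2 * rad N) ^ d))
              = (c ^ 2 * 4 ^ d) * (M * ((N : ℝ)⁻¹ * (rad N / 2) ^ d)) := by
                rw [e3]; field_simp
            _ ≤ (1 / 2) * (M * ((N : ℝ)⁻¹ * (rad N / 2) ^ d)) :=
                mul_le_mul_of_nonneg_right h5 h6
            _ = _ := by ring
      _ ≤ _ := by gcongr

theorem main (d : ℕ) (hd : 1 ≤ d) :
    ∃ C : ℝ, 0 < C ∧ ∀ δ : ℝ, 0 < δ → δ ≤ 1 → ∀ η : ℝ, 0 < η → η < 1 → ∀ M : ℝ,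
      ∃ (μ : Measure (EuclideanSpace ℝ (Fin d)))
        (K : EuclideanSpace ℝ (Fin d) → EuclideanSpace ℝ (Fin d) → ℝ)
        (T : L2Operator μ) (w : EuclideanSpace ℝ (Fin d) → ℝ),
        IsAdmissibleMeasure d C μ ∧ (∀ x r, 0 < r → 0 < μ (ball x r)) ∧
        IsCZKernel d δ C K ∧ IsAssociated T K ∧ T.norm = 1 ∧
        IsWeight μ w ∧ a2Char d η μ w ≤ 1 ∧ ENNReal.ofReal M ≤ weightedOpNorm T w := by
  set c : ℝ := ((4 : ℝ) ^ (d + 1))⁻¹ ^ 2 with hc
  have hc0 : 0 < c := by positivity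
  have hc1 : 1 ≤ c⁻¹ := by
    rw [hc, inv_pow, inv_inv]
    exact one_le_pow₀ (one_le_pow₀ (by norm_num))
  refine ⟨c⁻¹ * 2 ^ (d + 3), by positivity, fun δ _ hδ1 η hη hη1 M₀ => ?_⟩
  let i : Fin d := ⟨0, hd⟩
  set M : ℝ := max 1 (M₀ / c) with hM
  have hM1 : 1 ≤ M := le_max_left _ _
  obtain ⟨N, hN⟩ := exists_nat_ge (M ^ (1 / η))
  have hNr : (0 : ℝ) < N := lt_of_lt_of_le (by positivity) hN
  have hN0 : 0 < N := by exact_mod_cast hNr
  have hMε : M * ((N : ℝ)⁻¹) ^ η ≤ 1 := by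
    have h1 : M ≤ (N : ℝ) ^ η := by
      calc M = (M ^ (1 / η)) ^ η := by
            rw [← Real.rpow_mul (by linarith), one_div_mul_cancel hη.ne', Real.rpow_one]
        _ ≤ (N : ℝ) ^ η := Real.rpow_le_rpow (by positivity) hN hη.le
    rw [Real.inv_rpow hNr.le, ← div_eq_mul_inv, div_le_one (by positivity)]
    exact h1
  have := mu_sfinite d (N : ℝ)⁻¹
  obtain ⟨T, hT1, hT⟩ := (schurKernel d N hN0).exists_op
  obtain ⟨f, hf⟩ := test_function d N i hN0 _ rfl T hT
  have hTc : c ≤ ‖T‖ := by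
    obtain ⟨h0, h1, h2⟩ := hf 1 le_rfl
    have e : ((mu d (N : ℝ)⁻¹).withDensity fun x => ENNReal.ofReal (wt d i 1 x)) =
        mu d (N : ℝ)⁻¹ := by
      have : (fun x => ENNReal.ofReal (wt d i 1 x)) = 1 := by
        ext x; simp [wt]
      rw [this, withDensity_one]
    rw [e] at h0 h1 h2
    have h3 := ENNReal.toReal_mono (Lp.memLp (T f)).2.ne h2
    rw [ENNReal.toReal_mul, ← Lp.norm_def, ← Lp.norm_def, mul_one,
      ENNReal.toReal_ofReal hc0.le] at h3
    have h4 : 0 < ‖f‖ := by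
      rw [Lp.norm_def]; exact ENNReal.toReal_pos h0 h1
    exact le_of_mul_le_mul_right (h3.trans (T.le_opNorm f)) h4
  have hT0 : 0 < ‖T‖ := hc0.trans_le hTc
  refine ⟨mu d (N : ℝ)⁻¹, fun x y => ‖T‖⁻¹ * prof d N (dist x y), ⟨‖T‖⁻¹ • T⟩, wt d i M,
    admissible_mu d (by positivity) (inv_le_one_of_one_le₀ (by exact_mod_cast hN0)) ?_,
    fun x r hr => by
      rw [mu_ball d (by positivity) x hr]; exact ENNReal.ofReal_pos.2 (by positivity),
    isCZKernel_prof d N hd hδ1 (by positivity) (inv_anti₀ hc0 hTc), ?_, ?_,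
    isWeight_wt d i _ hM1, a2Char_le d i (by positivity) hη1.le hM1 hMε, ?_⟩
  · calc (2 : ℝ) ^ d ≤ 2 ^ (d + 3) := pow_le_pow_right₀ (by norm_num) (by omega)
      _ ≤ _ := le_mul_of_one_le_left (by positivity) hc1
  · intro g hg _
    filter_upwards [hT (hg.toLp g), Lp.coeFn_smul ‖T‖⁻¹ (T (hg.toLp g))] with x hx hx' _
    rw [L2Operator.app, smul_apply, hx', Pi.smul_apply, hx, smul_eq_mul, ← integral_const_mul]
    refine integral_congr_ae ?_
    filter_upwards [hg.coeFn_toLp] with y hy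
    rw [hy, mul_assoc]
  · change ‖‖T‖⁻¹ • T‖ = 1
    rw [norm_smul, norm_inv, norm_norm, inv_mul_cancel₀ hT0.ne']
  · obtain ⟨h0, h1, h2⟩ := hf M hM1
    refine le_trans ?_ (le_iSup _ f)
    rw [ENNReal.le_div_iff_mul_le (Or.inl h0) (Or.inl h1)]
    have hac : ((mu d (N : ℝ)⁻¹).withDensity fun x => ENNReal.ofReal (wt d i M x)) ≪
        mu d (N : ℝ)⁻¹ := withDensity_absolutelyContinuous _ _
    have h3 : M₀ ≤ c * M := by
      have := le_max_right 1 (M₀ / c)
      rw [← hM, div_le_iff₀ hc0] at this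
      linarith
    refine le_trans (mul_le_mul_left (ENNReal.ofReal_le_ofReal h3) _) (h2.trans ?_)
    refine eLpNorm_mono_ae (hac.ae_le ?_)
    filter_upwards [Lp.coeFn_smul ‖T‖⁻¹ (T f)] with x hx
    rw [L2Operator.app, smul_apply, hx, Pi.smul_apply, norm_smul, norm_inv, norm_norm]
    exact le_mul_of_one_le_left (norm_nonneg _) ((one_le_inv₀ hT0).2 hT1)

end Pool.Agent.Lib.MP_f88263_an
end
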