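import Mathlib
import Pool.Agent.Lib.MP_f88263_an.Defs
import Pool.Agent.Lib.MP_f88263_an.Main

/-!
A single measure and a single operator for Q2: the density of the measure tends to zero at
infinity like `1 / log |x|`, and the kernel has about `log |x|` active scales near `x`.
-/

open MeasureTheory Metric Set
open scoped ENNReal

namespace Pool.Agent.Lib.MP_f88263_an

variable {d : ℕ}

/-- The dyadic level of a point. -/
noncomputable def lev (x : EuclideanSpace ℝ (Fin d)) : ℕ := Nat.log 2 ⌊‖x‖⌋₊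

theorem measurable_lev : Measurable (lev : EuclideanSpace ℝ (Fin d) → ℕ) :=
  (measurable_from_nat (f := Nat.log 2)).comp (Nat.measurable_floor.comp measurable_norm)

theorem le_lev {x : EuclideanSpace ℝ (Fin d)} {k : ℕ} (h : (2 : ℝ) ^ k ≤ ‖x‖) : k ≤ lev x :=
  Nat.le_log_of_pow_le (by norm_num) (Nat.le_floor (by exact_mod_cast h))

theorem pow_lev_le {x : EuclideanSpace ℝ (Fin d)} (h : 0 < lev x) : (2 : ℝ) ^ lev x ≤ ‖x‖ := by
  have h0 : ⌊‖x‖⌋₊ ≠ 0 := by
    intro e
    simp [lev, e] at h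
  have h1 : ((2 ^ lev x : ℕ) : ℝ) ≤ (⌊‖x‖⌋₊ : ℝ) := by exact_mod_cast Nat.pow_log_le_self 2 h0
  have h2 := Nat.floor_le (norm_nonneg x)
  push_cast at h1
  linarith

theorem lev_eq {x : EuclideanSpace ℝ (Fin d)} {k : ℕ} (h1 : (2 : ℝ) ^ k ≤ ‖x‖)
    (h2 : ‖x‖ < (2 : ℝ) ^ (k + 1)) : lev x = k := by
  refine Nat.log_eq_of_pow_le_of_lt_pow (Nat.le_floor (by exact_mod_cast h1)) ?_
  rw [Nat.floor_lt (norm_nonneg x)]
  exact_mod_cast h2

theorem lev_le_norm (x : EuclideanSpace ℝ (Fin d)) : (lev x : ℝ) ≤ ‖x‖ := by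
  have h1 : lev x ≤ ⌊‖x‖⌋₊ := Nat.log_le_self 2 _
  have h2 := Nat.floor_le (norm_nonneg x)
  have h3 : (lev x : ℝ) ≤ (⌊‖x‖⌋₊ : ℝ) := by exact_mod_cast h1
  linarith

/-- The density. -/
noncomputable def rho (x : EuclideanSpace ℝ (Fin d)) : ℝ := ((lev x : ℝ) + 1)⁻¹

theorem rho_pos (x : EuclideanSpace ℝ (Fin d)) : 0 < rho x := by
  unfold rho; positivity

theorem rho_le_one (x : EuclideanSpace ℝ (Fin d)) : rho x ≤ 1 :=
  inv_le_one_of_one_le₀ (by linarith [(Nat.cast_nonneg (lev x) : (0 : ℝ) ≤ _)])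

theorem measurable_rho : Measurable (rho : EuclideanSpace ℝ (Fin d) → ℝ) :=
  (measurable_from_nat (f := fun k : ℕ => ((k : ℝ) + 1)⁻¹)).comp measurable_lev

/-- The measure. -/
noncomputable def mu1 (d : ℕ) : Measure (EuclideanSpace ℝ (Fin d)) :=
  (mu d 1).withDensity fun x => ENNReal.ofReal (rho x)

theorem mu_eq (ε : ℝ) (S : Set (EuclideanSpace ℝ (Fin d))) :
    mu d ε S = ENNReal.ofReal ε * mu d 1 S := by
  simp only [mu, Measure.smul_apply, smul_eq_mul, ENNReal.ofReal_one, one_mul, mul_assoc]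

theorem mu1_le_of {S : Set (EuclideanSpace ℝ (Fin d))} (hS : MeasurableSet S) {ε : ℝ}
    (h : ∀ y ∈ S, rho y ≤ ε) : mu1 d S ≤ mu d ε S := by
  rw [mu1, withDensity_apply _ hS, mu_eq ε, ← setLIntegral_const]
  exact setLIntegral_mono measurable_const fun y hy => ENNReal.ofReal_le_ofReal (h y hy)

theorem mu1_eq_of {S : Set (EuclideanSpace ℝ (Fin d))} (hS : MeasurableSet S) {ε : ℝ}
    (h : ∀ y ∈ S, rho y = ε) : mu1 d S = mu d ε S := by
  rw [mu1, withDensity_apply _ hS, mu_eq ε, ← setLIntegral_const]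
  exact setLIntegral_congr_fun hS fun y hy => by simp only [h y hy]

theorem mu1_le : mu1 d ≤ mu d 1 :=
  Measure.le_iff.2 fun _ hS => mu1_le_of hS fun y _ => rho_le_one y

theorem mu1_locFin : IsLocallyFiniteMeasure (mu1 d) := by
  have := mu_regular d 1
  exact Measure.isLocallyFiniteMeasure_of_le mu1_le

theorem mu1_regular : (mu1 d).Regular := by
  have := mu1_locFin (d := d)
  infer_instance

theorem mu1_ball_pos (x : EuclideanSpace ℝ (Fin d)) {r : ℝ} (hr : 0 < r) :
    0 < mu1 d (ball x r) := by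
  rw [pos_iff_ne_zero, Ne, mu1, withDensity_apply_eq_zero measurable_rho.ennreal_ofReal]
  have : {y : EuclideanSpace ℝ (Fin d) | ENNReal.ofReal (rho y) ≠ 0} = univ := by
    ext y
    simp [rho_pos y]
  rw [this, univ_inter, mu_ball d zero_le_one x hr]
  exact (ENNReal.ofReal_pos.2 (by positivity)).ne'

theorem admissible_mu1 {C : ℝ} (hC : 2 ^ d ≤ C) : IsAdmissibleMeasure d C (mu1 d) := by
  obtain ⟨-, h2, lam, h3⟩ := admissible_mu d zero_le_one le_rfl hC
  exact ⟨mu1_regular, fun x r hr => (mu1_le _).trans (h2 x r hr), lam, fun x r hr =>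
    ⟨(h3 x r hr).1, (mu1_le _).trans (h3 x r hr).2.1, (h3 x r hr).2.2⟩⟩

/-- The cutoff of the scale `j`. -/
noncomputable def cut (j : ℕ) (x : EuclideanSpace ℝ (Fin d)) : ℝ :=
  max (min (‖x‖ / rad j - 2) 1) 0

theorem cut_nonneg (j : ℕ) (x : EuclideanSpace ℝ (Fin d)) : 0 ≤ cut j x := le_max_right _ _

theorem cut_le_one (j : ℕ) (x : EuclideanSpace ℝ (Fin d)) : cut j x ≤ 1 :=
  max_le (min_le_right _ _) zero_le_one

theorem cut_eq_zero {j : ℕ} {x : EuclideanSpace ℝ (Fin d)} (h : ‖x‖ ≤ 2 * rad j) :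
    cut j x = 0 := by
  have : ‖x‖ / rad j ≤ 2 := by rwa [div_le_iff₀ (rad_pos j)]
  exact max_eq_right ((min_le_left _ _).trans (by linarith))

theorem cut_eq_one {j : ℕ} {x : EuclideanSpace ℝ (Fin d)} (h : 3 * rad j ≤ ‖x‖) :
    cut j x = 1 := by
  have : 3 ≤ ‖x‖ / rad j := by rwa [le_div_iff₀ (rad_pos j)]
  rw [cut, min_eq_right (by linarith), max_eq_left zero_le_one]

theorem cut_of_lev_le {j : ℕ} {x : EuclideanSpace ℝ (Fin d)} (h : lev x ≤ j) : cut j x = 0 := by
  refine cut_eq_zero (not_lt.1 fun h1 => ?_)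
  have : j + 3 ≤ lev x := le_lev (by
    have e : (2 : ℝ) ^ (j + 3) = 2 * rad j := by unfold rad; ring
    rw [e]; exact h1.le)
  omega

theorem cut_lip (j : ℕ) (x x' : EuclideanSpace ℝ (Fin d)) :
    |cut j x - cut j x'| ≤ (rad j)⁻¹ * dist x x' := by
  have hr := rad_pos j
  refine (abs_max_sub_max_le_abs _ _ _).trans ((abs_min_sub_min_le_max _ _ _ _).trans ?_)
  rw [sub_self, abs_zero, max_eq_left (abs_nonneg _)]
  have : ‖x‖ / rad j - 2 - (‖x'‖ / rad j - 2) = (rad j)⁻¹ * (‖x‖ - ‖x'‖) := by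
    field_simp; ring
  rw [this, abs_mul, abs_of_pos (inv_pos.2 hr), dist_eq_norm]
  exact mul_le_mul_of_nonneg_left (abs_norm_sub_norm_le _ _) (inv_pos.2 hr).le

/-- One scale of the kernel. -/
noncomputable def term (j : ℕ) (x y : EuclideanSpace ℝ (Fin d)) : ℝ :=
  bump d j (dist x y) * (cut j x * cut j y)

theorem term_nonneg (j : ℕ) (x y : EuclideanSpace ℝ (Fin d)) : 0 ≤ term j x y :=
  mul_nonneg (bump_nonneg _ _ _) (mul_nonneg (cut_nonneg _ _) (cut_nonneg _ _))

theorem term_le (j : ℕ) (x y : EuclideanSpace ℝ (Fin d)) : term j x y ≤ bump d j (dist x y) :=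
  mul_le_of_le_one_right (bump_nonneg _ _ _)
    (mul_le_one₀ (cut_le_one _ _) (cut_nonneg _ _) (cut_le_one _ _))

theorem term_comm (j : ℕ) (x y : EuclideanSpace ℝ (Fin d)) : term j x y = term j y x := by
  rw [term, term, dist_comm, mul_comm (cut j x)]

theorem continuous_term (j : ℕ) :
    Continuous fun p : EuclideanSpace ℝ (Fin d) × EuclideanSpace ℝ (Fin d) => term j p.1 p.2 := by
  unfold term bump cut
  fun_prop

/-- The kernel. -/
noncomputable def ker (x y : EuclideanSpace ℝ (Fin d)) : ℝ :=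
  ∑ j ∈ Finset.range (lev y), term j x y

theorem ker_eq {x y : EuclideanSpace ℝ (Fin d)} {N : ℕ} (h : lev x ≤ N ∨ lev y ≤ N) :
    ker x y = ∑ j ∈ Finset.range N, term j x y := by
  have h1 : ker x y = ∑ j ∈ Finset.range (max N (lev y)), term j x y := by
    refine Finset.sum_subset (Finset.range_subset_range.2 (le_max_right _ _)) fun j _ hj => ?_
    rw [Finset.mem_range, not_lt] at hj
    rw [term, cut_of_lev_le hj, mul_zero, mul_zero]
  rw [h1]
  refine (Finset.sum_subset (Finset.range_subset_range.2 (le_max_left _ _)) fun j _ hj => ?_).symm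
  rw [Finset.mem_range, not_lt] at hj
  rcases h with h | h
  · rw [term, cut_of_lev_le (h.trans hj), zero_mul, mul_zero]
  · rw [term, cut_of_lev_le (h.trans hj), mul_zero, mul_zero]

theorem ker_comm (x y : EuclideanSpace ℝ (Fin d)) : ker x y = ker y x := by
  rw [ker_eq (x := x) (y := y) (Or.inl le_rfl), ker]
  exact Finset.sum_congr rfl fun j _ => term_comm j x y

theorem ker_nonneg (x y : EuclideanSpace ℝ (Fin d)) : 0 ≤ ker x y :=
  Finset.sum_nonneg fun j _ => term_nonneg j x y

theorem ker_le (x y : EuclideanSpace ℝ (Fin d)) : ker x y ≤ prof d (lev y) (dist x y) :=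
  Finset.sum_le_sum fun j _ => term_le j x y

theorem measurable_ker : Measurable (Function.uncurry (ker (d := d))) := by
  have hm : ∀ j, Measurable fun p : EuclideanSpace ℝ (Fin d) × EuclideanSpace ℝ (Fin d) =>
      term j p.1 p.2 := fun j => (continuous_term j).measurable
  have hN : ∀ N, Measurable fun p : EuclideanSpace ℝ (Fin d) × EuclideanSpace ℝ (Fin d) =>
      ∑ j ∈ Finset.range N, term j p.1 p.2 := fun N => Finset.measurable_sum _ fun j _ => hm j
  refine measurable_of_tendsto_metrizable hN ?_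
  refine tendsto_pi_nhds.2 fun p => tendsto_const_nhds.congr' ?_
  filter_upwards [Filter.eventually_ge_atTop (lev p.2)] with N hN
  exact ker_eq (Or.inr hN)

theorem term_lip (j : ℕ) {x x' y : EuclideanSpace ℝ (Fin d)} (h2 : 2 * dist x x' ≤ dist x y) :
    |term j x y - term j x' y| ≤
      (if dist x y / 2 < rad j then (rad j ^ (d + 1))⁻¹ else 0) * (2 * dist x x') := by
  have hs : dist x y / 2 ≤ dist x' y := by linarith [dist_triangle x x' y]
  have hr := rad_pos j
  split_ifs with h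
  · have e : term j x y - term j x' y = ((bump d j (dist x y) - bump d j (dist x' y)) * cut j x +
        bump d j (dist x' y) * (cut j x - cut j x')) * cut j y := by
      unfold term; ring
    have h3 : |bump d j (dist x y) - bump d j (dist x' y)| ≤ (rad j ^ (d + 1))⁻¹ * dist x x' :=
      (bump_lip d j _ _).trans
        (mul_le_mul_of_nonneg_left (abs_dist_sub_le x x' y) (by positivity))
    have h4 : |bump d j (dist x' y) * (cut j x - cut j x')| ≤ (rad j ^ (d + 1))⁻¹ * dist x x' := by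
      rw [abs_mul, abs_of_nonneg (bump_nonneg _ _ _), pow_succ, mul_inv, mul_assoc]
      exact mul_le_mul (bump_le d j dist_nonneg) (cut_lip j x x') (abs_nonneg _) (by positivity)
    have h5 : |(bump d j (dist x y) - bump d j (dist x' y)) * cut j x| ≤
        (rad j ^ (d + 1))⁻¹ * dist x x' := by
      rw [abs_mul, abs_of_nonneg (cut_nonneg _ _)]
      exact (mul_le_of_le_one_right (abs_nonneg _) (cut_le_one _ _)).trans h3
    rw [e, abs_mul, abs_of_nonneg (cut_nonneg j y)]
    refine (mul_le_of_le_one_right (abs_nonneg _) (cut_le_one _ _)).trans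
      ((abs_add_le _ _).trans ?_)
    linarith
  · have h := not_lt.1 h
    have h0 : 0 ≤ dist x y := dist_nonneg
    rw [term, term, bump_eq_zero d j (by linarith), bump_eq_zero d j (by linarith)]
    simp

theorem isCZKernel_ker (hd : 1 ≤ d) {δ : ℝ} (hδ1 : δ ≤ 1) :
    IsCZKernel d δ (2 ^ (d + 4)) (ker (d := d)) := by
  constructor
  · intro x y hxy
    have ht : 0 < dist x y := dist_pos.2 hxy
    rw [abs_of_nonneg (ker_nonneg x y), div_eq_mul_inv]
    refine (ker_le x y).trans ((prof_le d _ hd ht).trans ?_)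
    refine mul_le_mul_of_nonneg_right ?_ (by positivity)
    calc (2 : ℝ) = 2 ^ 1 := by norm_num
      _ ≤ 2 ^ (d + 4) := pow_le_pow_right₀ (by norm_num) (by omega)
  · intro x x' y hxy h2
    have ht : 0 < dist x y := dist_pos.2 hxy
    have hl : |ker x y - ker x' y| ≤ 2 ^ (d + 3) * (dist x y ^ (d + 1))⁻¹ * dist x x' := by
      rw [ker, ker, ← Finset.sum_sub_distrib]
      refine (Finset.abs_sum_le_sum_abs _ _).trans
        ((Finset.sum_le_sum fun j _ => term_lip j h2).trans ?_)
      rw [← Finset.sum_mul]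
      refine (mul_le_mul_of_nonneg_right (geom (d + 1) _ (by omega) (half_pos ht))
        (by positivity)).trans (le_of_eq ?_)
      rw [div_pow]
      field_simp
      ring
    have hq : dist x x' / dist x y ≤ (dist x x' / dist x y) ^ δ := by
      rcases (div_nonneg (dist_nonneg (x := x) (y := x')) ht.le).eq_or_lt with h | h
      · rw [← h]; exact Real.rpow_nonneg le_rfl _
      · exact Real.self_le_rpow_of_le_one h.le
          (by rw [div_le_one ht]; linarith [dist_nonneg (x := x) (y := x')]) hδ1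
    rw [Real.div_rpow dist_nonneg ht.le] at hq
    rw [ker_comm y x, ker_comm y x', ← two_mul, Real.rpow_add ht, Real.rpow_natCast]
    have hp : 0 < dist x y ^ d := pow_pos ht d
    calc 2 * |ker x y - ker x' y|
        ≤ 2 * (2 ^ (d + 3) * (dist x y ^ (d + 1))⁻¹ * dist x x') :=
          mul_le_mul_of_nonneg_left hl (by norm_num)
      _ = 2 ^ (d + 4) * (dist x y ^ d)⁻¹ * (dist x x' / dist x y) := by
          field_simp
          ring
      _ ≤ 2 ^ (d + 4) * (dist x y ^ d)⁻¹ * (dist x x' ^ δ / dist x y ^ δ) :=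
          mul_le_mul_of_nonneg_left hq (by positivity)
      _ = _ := by
          have := Real.rpow_pos_of_pos ht δ
          field_simp

theorem row_ker (x : EuclideanSpace ℝ (Fin d)) : ∫⁻ y, ‖ker x y‖ₑ ∂(mu1 d) ≤ 1 := by
  have hm : ∀ j, MeasurableSet (ball x (rad j) ∩ {y : EuclideanSpace ℝ (Fin d) | ‖x‖ / 2 ≤ ‖y‖}) :=
    fun j => measurableSet_ball.inter (measurableSet_le measurable_const measurable_norm)
  calc ∫⁻ y, ‖ker x y‖ₑ ∂(mu1 d)
      ≤ ∫⁻ y, ∑ j ∈ Finset.range (lev x), (ball x (rad j) ∩ {y | ‖x‖ / 2 ≤ ‖y‖}).indicator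
          (fun _ => ENNReal.ofReal (rad j ^ d)⁻¹) y ∂(mu1 d) := by
        refine lintegral_mono fun y => ?_
        rw [Real.enorm_eq_ofReal (ker_nonneg x y), ker_eq (Or.inl le_rfl),
          ENNReal.ofReal_sum_of_nonneg fun j _ => term_nonneg j x y]
        refine Finset.sum_le_sum fun j _ => ?_
        by_cases h : y ∈ ball x (rad j) ∩ {y | ‖x‖ / 2 ≤ ‖y‖}
        · rw [indicator_of_mem h]
          exact ENNReal.ofReal_le_ofReal ((term_le j x y).trans (bump_le d j dist_nonneg))
        · rw [indicator_of_notMem h]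
          refine le_of_eq (ENNReal.ofReal_eq_zero.2 (le_of_eq ?_))
          by_cases h1 : dist x y < rad j
          · have h2 : ‖y‖ < ‖x‖ / 2 := not_le.1 fun h2 => h ⟨mem_ball'.2 h1, h2⟩
            have h3 : ‖x‖ - ‖y‖ ≤ dist x y := by
              rw [dist_eq_norm]; exact norm_sub_norm_le _ _
            rw [term, cut_eq_zero (x := x) (by linarith), zero_mul, mul_zero]
          · rw [term, bump_eq_zero d j (not_lt.1 h1), zero_mul]
    _ ≤ ∑ j ∈ Finset.range (lev x), ENNReal.ofReal (lev x : ℝ)⁻¹ := by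
        rw [lintegral_finsetSum _ fun j _ => measurable_const.indicator (hm j)]
        refine Finset.sum_le_sum fun j hj => ?_
        have hx : 0 < lev x := lt_of_le_of_lt (Nat.zero_le j) (Finset.mem_range.1 hj)
        have hx' : (0 : ℝ) < lev x := by exact_mod_cast hx
        have := pow_pos (rad_pos j) d
        rw [lintegral_indicator_const (hm j)]
        have h1 : mu1 d (ball x (rad j) ∩ {y | ‖x‖ / 2 ≤ ‖y‖}) ≤
            ENNReal.ofReal ((lev x : ℝ)⁻¹ * rad j ^ d) := by
          rw [← mu_ball d (by positivity) x (rad_pos j)]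
          refine (mu1_le_of (hm j) fun y hy => ?_).trans (measure_mono inter_subset_left)
          have h2 : lev x - 1 ≤ lev y := le_lev (by
            have h3 := pow_lev_le hx
            have e : lev x = (lev x - 1) + 1 := by omega
            rw [e, pow_succ] at h3
            have h4 : ‖x‖ / 2 ≤ ‖y‖ := hy.2
            linarith)
          have h5 : (lev x : ℝ) ≤ (lev y : ℝ) + 1 := by
            have : lev x ≤ lev y + 1 := by omega
            exact_mod_cast this
          exact inv_anti₀ hx' h5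
        refine (mul_le_mul_right h1 _).trans (le_of_eq ?_)
        rw [← ENNReal.ofReal_mul (by positivity)]
        congr 1
        field_simp
    _ ≤ 1 := by
        rw [← ENNReal.ofReal_sum_of_nonneg fun _ _ => by positivity, Finset.sum_const,
          Finset.card_range, nsmul_eq_mul]
        exact ENNReal.ofReal_le_one.2 (mul_inv_le_one)

theorem schur_ker : SchurKernel (mu1 d) (ker (d := d)) where
  meas := measurable_ker
  row := row_ker
  col y := by simpa only [ker_comm _ y] using row_ker y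
  mem x := by
    have := mu1_regular (d := d)
    have e : ker x = fun y => ∑ j ∈ Finset.range (lev x), term j x y :=
      funext fun y => ker_eq (Or.inl le_rfl)
    have hc : Continuous (ker x) := by
      rw [e]
      refine continuous_finsetSum _ fun j _ => ?_
      unfold term bump cut
      fun_prop
    refine hc.memLp_of_hasCompactSupport ?_
    refine HasCompactSupport.intro (isCompact_closedBall x (rad (lev x))) fun y hy => ?_
    rw [mem_closedBall', not_le] at hy
    refine le_antisymm ?_ (ker_nonneg x y)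
    rw [ker_comm, ← prof_eq_zero d (lev x) hy.le, dist_comm]
    exact ker_le y x

/-- The amplitude of the weight. -/
noncomputable def amp (η : ℝ) (x : EuclideanSpace ℝ (Fin d)) : ℝ := ((lev x : ℝ) + 1) ^ η

theorem one_le_amp {η : ℝ} (hη : 0 ≤ η) (x : EuclideanSpace ℝ (Fin d)) : 1 ≤ amp η x :=
  Real.one_le_rpow (by linarith [(Nat.cast_nonneg (lev x) : (0 : ℝ) ≤ _)]) hη

theorem amp_le {η : ℝ} (hη1 : η ≤ 1) (x : EuclideanSpace ℝ (Fin d)) : amp η x ≤ ‖x‖ + 1 :=
  (Real.rpow_le_self_of_one_le (by linarith [(Nat.cast_nonneg (lev x) : (0 : ℝ) ≤ _)]) hη1).trans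
    (by linarith [lev_le_norm x])

theorem measurable_amp (η : ℝ) : Measurable (amp η : EuclideanSpace ℝ (Fin d) → ℝ) :=
  (measurable_from_nat (f := fun k : ℕ => ((k : ℝ) + 1) ^ η)).comp measurable_lev

/-- The weight. -/
noncomputable def wt1 (i : Fin d) (η : ℝ) (x : EuclideanSpace ℝ (Fin d)) : ℝ :=
  wt d i (amp η x) x

theorem measurable_wt1 (i : Fin d) (η : ℝ) : Measurable (wt1 i η) :=
  Measurable.ite (measurableSet_stripes d i) (measurable_amp η).inv (measurable_amp η)

theorem isWeight_wt1 (i : Fin d) {η : ℝ} (hη : 0 ≤ η) (hη1 : η ≤ 1) :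
    IsWeight (mu1 d) (wt1 i η) := by
  have := mu1_locFin (d := d)
  have hc : LocallyIntegrable (fun x : EuclideanSpace ℝ (Fin d) => ‖x‖ + 1) (mu1 d) :=
    Continuous.locallyIntegrable (by fun_prop)
  have hp : ∀ x, 0 < wt1 i η x := fun x => wt_pos d i (one_le_amp hη x) x
  refine ⟨Filter.Eventually.of_forall hp, ?_, ?_⟩
  · refine hc.mono (measurable_wt1 i η).aestronglyMeasurable
      (Filter.Eventually.of_forall fun x => ?_)
    rw [Real.norm_eq_abs, Real.norm_eq_abs, abs_of_pos (hp x), abs_of_pos (by positivity)]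
    exact (wt_le d i (one_le_amp hη x) x).1.trans (amp_le hη1 x)
  · refine hc.mono (measurable_wt1 i η).inv.aestronglyMeasurable
      (Filter.Eventually.of_forall fun x => ?_)
    rw [Real.norm_eq_abs, Real.norm_eq_abs, abs_of_pos (inv_pos.2 (hp x)),
      abs_of_pos (by positivity)]
    exact (wt_le d i (one_le_amp hη x) x).2.trans (amp_le hη1 x)

theorem a2_factor1 {η : ℝ} (hη : 0 ≤ η) (hη1 : η ≤ 1) (g : EuclideanSpace ℝ (Fin d) → ℝ)
    (hg : ∀ x, g x ≤ amp η x) (x : EuclideanSpace ℝ (Fin d)) {r : ℝ} (hr : 0 < r) :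
    (∫⁻ y in ball x r, ENNReal.ofReal (g y) ∂(mu1 d)) /
      (mu1 d (ball x r) ^ (1 - η) * ENNReal.ofReal (r ^ ((d : ℝ) * η))) ≤ 1 := by
  refine ENNReal.div_le_of_le_mul ?_
  rw [one_mul]
  have h1 : ∫⁻ y in ball x r, ENNReal.ofReal (g y) ∂(mu1 d) ≤
      ∫⁻ y in ball x r, ENNReal.ofReal (amp η y) ∂(mu1 d) :=
    lintegral_mono fun y => ENNReal.ofReal_le_ofReal (hg y)
  refine h1.trans ?_
  have h2 : ∫⁻ y in ball x r, ENNReal.ofReal (amp η y) ∂(mu1 d) =
      ∫⁻ y in ball x r, ENNReal.ofReal (rho y) ^ (1 - η) * (1 : ℝ≥0∞) ^ η ∂(mu d 1) := by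
    rw [mu1, setLIntegral_withDensity_eq_setLIntegral_mul _ measurable_rho.ennreal_ofReal
      (measurable_amp η).ennreal_ofReal measurableSet_ball]
    refine lintegral_congr fun y => ?_
    have h0 : (0 : ℝ) < (lev y : ℝ) + 1 := by positivity
    rw [Pi.mul_apply, ENNReal.one_rpow, mul_one, ← ENNReal.ofReal_mul (rho_pos y).le,
      ENNReal.ofReal_rpow_of_nonneg (rho_pos y).le (by linarith)]
    congr 1
    rw [rho, amp, Real.inv_rpow h0.le, ← Real.rpow_neg h0.le, neg_sub, Real.rpow_sub h0,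
      Real.rpow_one]
    field_simp
  rw [h2]
  refine (ENNReal.lintegral_mul_norm_pow_le (μ := (mu d 1).restrict (ball x r))
    (f := fun y => ENNReal.ofReal (rho y)) (g := fun _ => 1)
    measurable_rho.ennreal_ofReal.aemeasurable aemeasurable_const (by linarith) hη
    (by ring)).trans (le_of_eq ?_)
  rw [mu1, withDensity_apply _ measurableSet_ball, setLIntegral_one, mu_ball d zero_le_one x hr,
    one_mul, ENNReal.ofReal_rpow_of_nonneg (by positivity) hη, Real.rpow_mul hr.le,
    Real.rpow_natCast]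

theorem a2Char_le1 (i : Fin d) {η : ℝ} (hη : 0 ≤ η) (hη1 : η ≤ 1) :
    a2Char d η (mu1 d) (wt1 i η) ≤ 1 := by
  refine iSup_le fun x => iSup_le fun r => iSup_le fun hr => ?_
  exact mul_le_one'
    (a2_factor1 hη hη1 _ (fun y => (wt_le d i (one_le_amp hη y) y).1) x hr)
    (a2_factor1 hη hη1 _ (fun y => (wt_le d i (one_le_amp hη y) y).2) x hr)

/-- The centre of the `N`-th test region. -/
noncomputable def ctr (i : Fin d) (N : ℕ) : EuclideanSpace ℝ (Fin d) :=
  EuclideanSpace.single i (6 * rad N)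

theorem region_norm (i : Fin d) (N : ℕ) {y : EuclideanSpace ℝ (Fin d)}
    (hy : y ∈ ball (ctr i N) (2 * rad N)) : 4 * rad N ≤ ‖y‖ ∧ ‖y‖ < 8 * rad N := by
  have hr := rad_pos N
  have h1 : ‖ctr i N‖ = 6 * rad N := by
    rw [ctr, PiLp.norm_single, Real.norm_eq_abs, abs_of_pos (by positivity)]
  have h2 := abs_norm_sub_norm_le y (ctr i N)
  rw [mem_ball, dist_eq_norm] at hy
  rw [h1, abs_le] at h2
  constructor <;> linarith [h2.1, h2.2]

theorem region_lev (i : Fin d) (N : ℕ) {y : EuclideanSpace ℝ (Fin d)}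
    (hy : y ∈ ball (ctr i N) (2 * rad N)) : lev y = N + 4 := by
  obtain ⟨h1, h2⟩ := region_norm i N hy
  refine lev_eq ?_ ?_
  · have e : (2 : ℝ) ^ (N + 4) = 4 * rad N := by unfold rad; ring
    rwa [e]
  · have e : (2 : ℝ) ^ (N + 4 + 1) = 8 * rad N := by unfold rad; ring
    rwa [e]

theorem region_mu (i : Fin d) (N : ℕ) {S : Set (EuclideanSpace ℝ (Fin d))} (hS : MeasurableSet S)
    (h : S ⊆ ball (ctr i N) (2 * rad N)) : mu1 d S = mu d ((N : ℝ) + 5)⁻¹ S := by
  refine mu1_eq_of hS fun y hy => ?_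
  rw [rho, region_lev i N (h hy)]
  push_cast
  ring

theorem region_ker (i : Fin d) (N : ℕ) {x y : EuclideanSpace ℝ (Fin d)}
    (hx : x ∈ ball (ctr i N) (2 * rad N)) (hy : y ∈ ball (ctr i N) (2 * rad N)) :
    prof d N (dist x y) ≤ ker x y := by
  rw [ker, region_lev i N hy]
  refine le_trans (le_of_eq ?_) (Finset.sum_le_sum_of_subset_of_nonneg
    (Finset.range_subset_range.2 (Nat.le_add_right N 4)) fun j _ _ => term_nonneg j x y)
  refine Finset.sum_congr rfl fun j hj => ?_
  have h1 := rad_le (Finset.mem_range.1 hj).le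
  have h2 := rad_pos j
  rw [term, cut_eq_one (by linarith [(region_norm i N hx).1]),
    cut_eq_one (by linarith [(region_norm i N hy).1]), mul_one, mul_one]

theorem lower_bound1 (i : Fin d) (N : ℕ) (hN : 0 < N) (x : EuclideanSpace ℝ (Fin d))
    (hx : x ∈ ball (ctr i N) (rad N)) :
    ENNReal.ofReal (((4 : ℝ) ^ (d + 1) * 6)⁻¹) ≤ ∫⁻ y, ENNReal.ofReal (ker x y *
      (stripes d i ∩ ball (ctr i N) (2 * rad N)).indicator (fun _ => (1 : ℝ)) y) ∂(mu1 d) := by
  have hε : (0 : ℝ) ≤ ((N : ℝ) + 5)⁻¹ := by positivity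
  have hN' : (1 : ℝ) ≤ N := by exact_mod_cast hN
  have hm : ∀ j, MeasurableSet (stripes d i ∩ ball x (rad j / 2)) := fun j =>
    (measurableSet_stripes d i).inter measurableSet_ball
  have hsub : ∀ j ∈ Finset.range N, ball x (rad j / 2) ⊆ ball (ctr i N) (2 * rad N) := by
    intro j hj y h
    have h1 := mem_ball.1 h
    have h2 := mem_ball.1 hx
    have h3 := rad_le (Finset.mem_range.1 hj).le
    have h4 := dist_triangle y x (ctr i N)
    have h5 := rad_pos j
    rw [mem_ball]
    linarith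
  have hx2 : x ∈ ball (ctr i N) (2 * rad N) := ball_subset_ball (by linarith [rad_pos N]) hx
  calc ENNReal.ofReal (((4 : ℝ) ^ (d + 1) * 6)⁻¹)
      ≤ ∑ j ∈ Finset.range N, ENNReal.ofReal (((N : ℝ) + 5)⁻¹ * ((4 : ℝ) ^ (d + 1))⁻¹) := by
        rw [← ENNReal.ofReal_sum_of_nonneg fun _ _ => by positivity, Finset.sum_const,
          Finset.card_range, nsmul_eq_mul, ← mul_assoc, mul_inv, mul_comm]
        refine ENNReal.ofReal_le_ofReal (mul_le_mul_of_nonneg_right ?_ (by positivity))
        rw [← div_eq_mul_inv, le_div_iff₀ (by positivity)]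
        linarith
    _ ≤ ∫⁻ y, ∑ j ∈ Finset.range N, (stripes d i ∩ ball x (rad j / 2)).indicator
          (fun _ => ENNReal.ofReal ((rad j ^ d)⁻¹ / 2)) y ∂(mu1 d) := by
        rw [lintegral_finsetSum _ fun j _ => measurable_const.indicator (hm j)]
        refine Finset.sum_le_sum fun j hj => ?_
        have h0 := pow_pos (rad_pos j) d
        rw [lintegral_indicator_const (hm j),
          region_mu i N (hm j) (inter_subset_right.trans (hsub j hj))]
        refine le_trans (le_of_eq ?_) (mul_le_mul_right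
          (stripes_half d i hε x (ρ := rad j / 2) (by linarith [four_le_rad j])) _)
        rw [← ENNReal.ofReal_mul (by positivity)]
        congr 1
        have : (rad j / 2 / 2) ^ d = rad j ^ d / 4 ^ d := by
          rw [← div_pow]; congr 1; ring
        rw [this]
        field_simp
        ring
    _ ≤ _ := by
        refine lintegral_mono fun y => ?_
        by_cases hy : y ∈ stripes d i ∩ ball (ctr i N) (2 * rad N)
        · rw [indicator_of_mem hy, mul_one]
          refine le_trans ?_ (ENNReal.ofReal_le_ofReal (region_ker i N hx2 hy.2))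
          rw [ofReal_prof]
          refine Finset.sum_le_sum fun j _ => ?_
          by_cases h : y ∈ stripes d i ∩ ball x (rad j / 2)
          · rw [indicator_of_mem h]
            exact ENNReal.ofReal_le_ofReal (le_bump d j (mem_ball'.1 h.2).le)
          · rw [indicator_of_notMem h]
            exact zero_le
        · refine le_trans (le_of_eq (Finset.sum_eq_zero fun j hj => ?_)) zero_le
          exact indicator_of_notMem (fun h => hy ⟨h.1, hsub j hj h.2⟩) _

theorem test_function1 (i : Fin d) (N : ℕ) (hN : 0 < N) (η : ℝ)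
    (T : Lp ℝ 2 (mu1 d) →L[ℝ] Lp ℝ 2 (mu1 d))
    (hT : ∀ f : Lp ℝ 2 (mu1 d), T f =ᵐ[mu1 d] fun x => ∫ y, ker x y * f y ∂(mu1 d)) :
    ∃ f : Lp ℝ 2 (mu1 d),
      eLpNorm f 2 ((mu1 d).withDensity fun x => ENNReal.ofReal (wt1 i η x)) ≠ 0 ∧
      eLpNorm f 2 ((mu1 d).withDensity fun x => ENNReal.ofReal (wt1 i η x)) ≠ ∞ ∧
      ENNReal.ofReal (((4 : ℝ) ^ (d + 1) * 6)⁻¹ ^ 2 * ((N : ℝ) + 5) ^ η) *
        eLpNorm f 2 ((mu1 d).withDensity fun x => ENNReal.ofReal (wt1 i η x)) ≤
      eLpNorm (T f) 2 ((mu1 d).withDensity fun x => ENNReal.ofReal (wt1 i η x)) := by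
  set ε : ℝ := ((N : ℝ) + 5)⁻¹ with hεd
  have hε : (0 : ℝ) < ε := by positivity
  have hSK := schur_ker (d := d)
  set c : ℝ := ((4 : ℝ) ^ (d + 1) * 6)⁻¹ with hc
  have hc0 : 0 < c := by positivity
  have hR := four_le_rad N
  set M : ℝ := ((N : ℝ) + 5) ^ η with hMd
  have hM0 : 0 < M := by positivity
  have hamp : ∀ y ∈ ball (ctr i N) (2 * rad N), amp η y = M := fun y hy => by
    rw [amp, region_lev i N hy, hMd]
    congr 1
    push_cast
    ring
  set S := stripes d i ∩ ball (ctr i N) (2 * rad N) with hS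
  set S' := (stripes d i)ᶜ ∩ ball (ctr i N) (rad N) with hS'
  have mS : MeasurableSet S := (measurableSet_stripes d i).inter measurableSet_ball
  have mS' : MeasurableSet S' := (measurableSet_stripes d i).compl.inter measurableSet_ball
  have hsub : S' ⊆ ball (ctr i N) (2 * rad N) :=
    inter_subset_right.trans (ball_subset_ball (by linarith))
  have hSle : mu1 d S ≤ ENNReal.ofReal (ε * (2 * rad N) ^ d) := by
    rw [← mu_ball d hε.le (ctr i N) (by linarith), region_mu i N mS inter_subset_right]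
    exact measure_mono inter_subset_right
  have hSfin : mu1 d S ≠ ∞ := ne_top_of_le_ne_top ENNReal.ofReal_ne_top hSle
  have hSpos : mu1 d S ≠ 0 := by
    rw [region_mu i N mS inter_subset_right]
    refine ne_of_gt (lt_of_lt_of_le ?_
      (stripes_half d i hε.le (ctr i N) (ρ := 2 * rad N) (by linarith)))
    exact ENNReal.ofReal_pos.2 (by positivity)
  have hS'ge := stripes_compl_half d i hε.le (ctr i N) (ρ := rad N) (by linarith)
  rw [← region_mu i N mS' hsub] at hS'ge
  have hf0 := indicatorConstLp_coeFn (p := 2) (hs := mS) (hμs := hSfin) (c := (1 : ℝ))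
  refine ⟨indicatorConstLp 2 mS hSfin (1 : ℝ), ?_⟩
  set f := indicatorConstLp 2 mS hSfin (1 : ℝ)
  set ν := (mu1 d).withDensity fun x => ENNReal.ofReal (wt1 i η x) with hν
  have hac : ν ≪ mu1 d := withDensity_absolutelyContinuous _ _
  have hνS : ν S = ENNReal.ofReal M⁻¹ * mu1 d S := by
    rw [hν, withDensity_apply _ mS, ← setLIntegral_const]
    refine setLIntegral_congr_fun mS fun x hx => ?_
    simp only [wt1, wt, if_pos hx.1, hamp x hx.2]
  have hνS' : ν S' = ENNReal.ofReal M * mu1 d S' := by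
    rw [hν, withDensity_apply _ mS', ← setLIntegral_const]
    refine setLIntegral_congr_fun mS' fun x hx => ?_
    simp only [wt1, wt, if_neg hx.1, hamp x (hsub hx)]
  have e1 : eLpNorm f 2 ν = ν S ^ (1 / 2 : ℝ) := by
    rw [eLpNorm_congr_ae (hac.ae_eq hf0), eLpNorm_indicator_const mS (by norm_num) (by norm_num)]
    simp
  have e2 : ENNReal.ofReal c * ν S' ^ (1 / 2 : ℝ) ≤ eLpNorm (T f) 2 ν := by
    have : eLpNorm (S'.indicator fun _ => c) 2 ν = ENNReal.ofReal c * ν S' ^ (1 / 2 : ℝ) := by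
      rw [eLpNorm_indicator_const mS' (by norm_num) (by norm_num), Real.enorm_eq_ofReal hc0.le]
      simp
    rw [← this]
    refine eLpNorm_mono_enorm_ae (hac.ae_le ?_)
    filter_upwards [hT f] with x hx
    by_cases hxS : x ∈ S'
    · rw [indicator_of_mem hxS, Real.enorm_eq_ofReal hc0.le, hx]
      have h1 : ∫ y, ker x y * f y ∂(mu1 d) =
          ∫ y, ker x y * S.indicator (fun _ => (1 : ℝ)) y ∂(mu1 d) := by
        refine integral_congr_ae ?_
        filter_upwards [hf0] with y hy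
        rw [hy]
      have h2 : Integrable (fun y => ker x y * S.indicator (fun _ => (1 : ℝ)) y) (mu1 d) := by
        refine ((hSK.mem x).integrable_mul (Lp.memLp f)).congr ?_
        filter_upwards [hf0] with y hy
        rw [Pi.mul_apply, hy]
      rw [h1]
      refine (lower_bound1 i N hN x hxS.2).trans ?_
      rw [← ofReal_integral_eq_lintegral_ofReal h2 (Filter.Eventually.of_forall fun y =>
        mul_nonneg (ker_nonneg x y) (indicator_nonneg (fun _ _ => zero_le_one) y))]
      exact Real.ofReal_le_enorm _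
    · rw [indicator_of_notMem hxS]
      simp
  refine ⟨?_, ?_, le_trans ?_ e2⟩
  · rw [e1, hνS]
    refine (ENNReal.rpow_pos ?_ ?_).ne'
    · exact ENNReal.mul_pos (ENNReal.ofReal_pos.2 (by positivity)).ne' hSpos
    · exact ENNReal.mul_ne_top ENNReal.ofReal_ne_top hSfin
  · rw [e1, hνS]
    exact ENNReal.rpow_ne_top_of_nonneg (by norm_num)
      (ENNReal.mul_ne_top ENNReal.ofReal_ne_top hSfin)
  · rw [e1, sq, mul_assoc, ENNReal.ofReal_mul hc0.le, mul_assoc]
    refine mul_le_mul_right ?_ _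
    have h3 : ENNReal.ofReal (c * M) = (ENNReal.ofReal ((c * M) ^ 2)) ^ (1 / 2 : ℝ) := by
      rw [ENNReal.ofReal_rpow_of_nonneg (by positivity) (by norm_num), ← Real.sqrt_eq_rpow,
        Real.sqrt_sq (by positivity)]
    rw [h3, ← ENNReal.mul_rpow_of_nonneg _ _ (by norm_num), hνS, hνS']
    refine ENNReal.rpow_le_rpow ?_ (by norm_num)
    calc ENNReal.ofReal ((c * M) ^ 2) * (ENNReal.ofReal M⁻¹ * mu1 d S)
        ≤ ENNReal.ofReal ((c * M) ^ 2) *
            (ENNReal.ofReal M⁻¹ * ENNReal.ofReal (ε * (2 * rad N) ^ d)) := by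
          gcongr
      _ ≤ ENNReal.ofReal M * ENNReal.ofReal (ε * (rad N / 2) ^ d / 2) := by
          rw [← ENNReal.ofReal_mul (by positivity), ← ENNReal.ofReal_mul (by positivity),
            ← ENNReal.ofReal_mul (by positivity)]
          refine ENNReal.ofReal_le_ofReal ?_
          have e3 : (2 * rad N) ^ d = 4 ^ d * (rad N / 2) ^ d := by
            rw [← mul_pow]; congr 1; ring
          have h4 : (1 : ℝ) ≤ 4 ^ d := one_le_pow₀ (by norm_num)
          have h5 : c ^ 2 * 4 ^ d ≤ 1 / 2 := by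
            rw [hc, pow_succ (4 : ℝ) d]
            field_simp
            nlinarith
          have h6 : 0 ≤ M * (ε * (rad N / 2) ^ d) := by positivity
          calc (c * M) ^ 2 * (M⁻¹ * (ε * (2 * rad N) ^ d))
              = (c ^ 2 * 4 ^ d) * (M * (ε * (rad N / 2) ^ d)) := by
                rw [e3]; field_simp
            _ ≤ (1 / 2) * (M * (ε * (rad N / 2) ^ d)) :=
                mul_le_mul_of_nonneg_right h5 h6
            _ = _ := by ring
      _ ≤ _ := by gcongr

theorem main_single (d : ℕ) (hd : 1 ≤ d) :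
    ∃ (C : ℝ) (μ : Measure (EuclideanSpace ℝ (Fin d)))
      (K : EuclideanSpace ℝ (Fin d) → EuclideanSpace ℝ (Fin d) → ℝ) (T : L2Operator μ),
      0 < C ∧ IsAdmissibleMeasure d C μ ∧ (∀ x r, 0 < r → 0 < μ (ball x r)) ∧
      (∀ δ : ℝ, 0 < δ → δ ≤ 1 → IsCZKernel d δ C K) ∧ IsAssociated T K ∧ T.norm ≤ 1 ∧
      ∀ η : ℝ, 0 < η → η < 1 → ∃ w : EuclideanSpace ℝ (Fin d) → ℝ,
        IsWeight μ w ∧ a2Char d η μ w ≤ 1 ∧ weightedOpNorm T w = ∞ := by
  have := mu1_regular (d := d)
  obtain ⟨T, hT1, hT⟩ := (schur_ker (d := d)).exists_op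
  let i : Fin d := ⟨0, hd⟩
  refine ⟨2 ^ (d + 4), mu1 d, ker, ⟨T⟩, by positivity,
    admissible_mu1 (pow_le_pow_right₀ (by norm_num) (by omega)), fun x r hr => mu1_ball_pos x hr,
    fun δ _ hδ1 => isCZKernel_ker hd hδ1, ?_, hT1, fun η hη hη1 =>
      ⟨wt1 i η, isWeight_wt1 i hη.le hη1.le, a2Char_le1 i hη.le hη1.le, ?_⟩⟩
  · intro g hg _
    filter_upwards [hT (hg.toLp g)] with x hx _
    rw [L2Operator.app, hx]
    refine integral_congr_ae ?_
    filter_upwards [hg.coeFn_toLp] with y hy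
    rw [hy]
  · refine ENNReal.eq_top_of_forall_nnreal_le fun A => ?_
    set c : ℝ := ((4 : ℝ) ^ (d + 1) * 6)⁻¹ ^ 2 with hc
    have hc0 : 0 < c := by positivity
    obtain ⟨N, hN⟩ := exists_nat_ge (((A : ℝ) / c) ^ (1 / η))
    have hA : (0 : ℝ) ≤ (A : ℝ) / c := by positivity
    have h1 : (A : ℝ) / c ≤ (((N + 1 : ℕ) : ℝ) + 5) ^ η := by
      calc (A : ℝ) / c = (((A : ℝ) / c) ^ (1 / η)) ^ η := by
            rw [← Real.rpow_mul hA, one_div_mul_cancel hη.ne', Real.rpow_one]
        _ ≤ _ := Real.rpow_le_rpow (by positivity) (by push_cast; linarith) hη.le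
    obtain ⟨f, h0, h2, h3⟩ := test_function1 i (N + 1) (Nat.succ_pos N) η T hT
    refine le_trans ?_ (le_iSup _ f)
    rw [ENNReal.le_div_iff_mul_le (Or.inl h0) (Or.inl h2)]
    refine le_trans (mul_le_mul_left ?_ _) h3
    rw [← ENNReal.ofReal_coe_nnreal]
    refine ENNReal.ofReal_le_ofReal ?_
    rw [div_le_iff₀ hc0] at h1
    linarith

end Pool.Agent.Lib.MP_f88263_an
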